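import Pool.Agent.helper19.SK.MAIN
import Pool.Agent.helper38.AT.All
import Pool.Agent.helper9.IT.ORB
import Pool.Agent.helper49.IT.ADO
import Pool.Agent.helper24.IT.PRI

/-!
# For EVERY case of Q1 one of four explicit equations is true with a positive proportion in every long interval of every class near its `c`

`c'` is true for `(a, b)` if `(a, b, c')` satisfies the conditions of Q1 (`Admissible`) and `a p - b q = c'` has infinitely many solutions in primes (`TrueCase`).
`Dens η a b c`: there is `D ≥ 1` such that for every multiple `q` of `D` every long progression of step `q` which starts at some `y ≡ c` modulo `D` contains at least the proportion `η` of `c'` which are true for `(a, b)`.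
So the true `c'` have bounded gaps, and lower density at least `η`, in every residue class inside `c + D ℤ`.

THEOREM. For every `k` there is `η > 0` such that for any `k` linear forms `s_i n + h_i`, `s_i ≥ 1`, whose product has no fixed prime divisor, there is a set `I` of MORE THAN `k/4` of the indices such that `Dens η a b (a h_i - b h_j)` for all `i ≠ j` in `I`, where `a = s_j / d`, `b = s_i / d`, `d = gcd(s_i, s_j)`.
COROLLARY (`k = 4`, orbits of `T(x) = (b x + c)/a`). `η > 0` absolute: for EVERY `(a, b, c)` as in Q1 one of `T`, `T^2`, `T^3` (or `T^4`, only needed if `3 ∣ a - b`, `3 ∤ a b c`) has this property.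

PROOF. The input is the theorem on almost all tuples of linear forms (a sieve of Maynard and Tao for clusters of forms, `Pool/Agent/helper38/AT`): more than `α k'`, `α = 1/4 + 1/500000`, of the `k'` forms of almost every tuple in a product of large sets of forms are prime simultaneously for infinitely many `n` (a clique); then every pair of them gives a true case.
Suppose that the theorem is false for the `k` forms: every set of more than `k/4` indices contains a BAD pair, and for a bad pair there are for every `D` a multiple `q` of `D` and arbitrarily long progressions of step `q` in the class of `c_ij` modulo `D` with a proportion less than `η` of true `c`.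
Take `(m + 1)^T` far translates of the whole configuration, indexed by the paths with `T` digits in `{0} ∪ {bad pairs}`; the translations of the digit `e` at the level `l` are chosen level by level such that the `c` of the pairs (slope `i` in the copy `e`, slope `j` in the copy `0`), with all smaller translations added, lie in a very long progression with few true `c`:
as `η` is small for the number of the smaller translations they can be chosen such that ALL these `c` are false. The moduli are chosen before, from the top level down, such that the smaller translations do not leave the class. In every cluster of the level `t` call a slope hit if it is in the clique for some translate in the cluster.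
The mean of the number of hit slopes does not decrease with `t` and is at most `k`, so it is almost constant at some level `t < T`; then in most clusters of the level `t + 1` the same slopes are hit in all subclusters, so the hit slopes contain no bad pair and are at most `k/4` in number. So the clique has at most `k/4 + small` elements per translate: contradiction.
-/

set_option autoImplicit false

namespace Pool.Agent.Results.MP_bf63dc_nt.EveryCase

open Finset

/-- The conditions of Q1: `a, b ≥ 1`, `c ≠ 0`, pairwise relatively prime, not all odd. -/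
def Admissible (a b : ℕ) (c : ℤ) : Prop :=
  0 < a ∧ 0 < b ∧ c ≠ 0 ∧ Nat.Coprime a b ∧ IsCoprime (a : ℤ) c ∧ IsCoprime (b : ℤ) c ∧
    ¬ (Odd a ∧ Odd b ∧ Odd c)

/-- `c` is true for `(a, b)`: the conditions of Q1 hold and `a p - b q = c` has infinitely many solutions in primes. -/
def TrueCase (a b : ℕ) (c : ℤ) : Prop :=
  Admissible a b c ∧ {pq : ℕ × ℕ | pq.1.Prime ∧ pq.2.Prime ∧ (a : ℤ) * pq.1 - b * pq.2 = c}.Infinite

/-- There is `D ≥ 1` such that for every multiple `q` of `D` there is `M₀` such that for all `M ≥ M₀` and all `y ≡ c` modulo `D` at least `η M` of the numbers `y, y + q, ..., y + (M - 1) q` are true for `(a, b)`. -/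
def Dens (η : ℝ) (a b : ℕ) (c : ℤ) : Prop :=
  ∃ D : ℕ, 1 ≤ D ∧ ∀ q : ℕ, 1 ≤ q → D ∣ q → ∃ M₀ : ℕ, ∀ M : ℕ, M₀ ≤ M → ∀ y : ℤ, (D : ℤ) ∣ y - c →
    η * M ≤ ({t : ℕ | t < M ∧ TrueCase a b (y + q * t)}.ncard : ℝ)

theorem hT : Pool.Agent.helper85.FC.TrueCase = TrueCase := by
  funext a b c
  unfold Pool.Agent.helper85.FC.TrueCase TrueCase Admissible
  simp only [and_assoc]

theorem dens_of (η : ℝ) (a b : ℕ) (c : ℤ) (h : Pool.Agent.SK.Dens η a b c) : Dens η a b c := by
  classical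
  obtain ⟨D, hD, h1⟩ := h
  refine ⟨D, hD, fun q hq hDq => ?_⟩
  obtain ⟨M₀, h2⟩ := h1 q hq hDq
  refine ⟨M₀, fun M hM y hy => ?_⟩
  refine (h2 M hM y hy).trans (le_of_eq ?_)
  unfold Pool.Agent.HF.cz
  have e2 : {t : ℕ | t < M ∧ TrueCase a b (y + q * t)} = ((range M).filter (fun t : ℕ => Pool.Agent.HF.TC a b (y + q * (t : ℕ))) : Finset ℕ) := by
    ext t
    simp only [Set.mem_ofPred_eq, coe_filter, mem_range]
    unfold Pool.Agent.HF.TC
    rw [hT]
  rw [e2, Set.ncard_coe_finset]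

/-- two indices of the orbit -/
theorem orbit (η : ℝ) (hη : ∀ F : Fin 4 → ℕ × ℤ, (∀ i, 0 < (F i).1) → Pool.Agent.AT.Adm F →
    ∃ I : Finset (Fin 4), ((4 : ℕ) : ℝ) / 4 < I.card ∧ ∀ i ∈ I, ∀ j ∈ I, i ≠ j →
      Pool.Agent.SK.Dens η ((F j).1 / Nat.gcd (F i).1 (F j).1) ((F i).1 / Nat.gcd (F i).1 (F j).1)
        ((((F j).1 / Nat.gcd (F i).1 (F j).1 : ℕ) : ℤ) * (F i).2 - (((F i).1 / Nat.gcd (F i).1 (F j).1 : ℕ) : ℤ) * (F j).2))
    (a b : ℕ) (c : ℤ) (hc : Admissible a b c) (e : Fin 4 → ℕ) (E : ℕ) (he : StrictMono e) (heE : ∀ i, e i ≤ E)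
    (h3 : (3 : ℤ) ∣ a * b * c ∨ ¬ (3 : ℤ) ∣ (a : ℤ) - b ∨ ∃ r : ℤ, ∀ i, ¬ (3 : ℤ) ∣ (e i : ℤ) - r) :
    ∃ i j : Fin 4, i < j ∧ Dens η (a ^ (e j - e i)) (b ^ (e j - e i)) (c * (Pool.Agent.IT.br a b (e j - e i) : ℕ)) := by
  have ha : 0 < a := hc.1
  have hb : 0 < b := hc.2.1
  have hab : Nat.Coprime a b := hc.2.2.2.1
  obtain ⟨h, hh⟩ := Pool.Agent.IT.ORB a b E c ha hb hab
  have hadm := Pool.Agent.IT.ADO a b E c e h hc hh heE h3
  obtain ⟨I, hI, hI2⟩ := hη (fun i => (a ^ (E - e i) * b ^ (e i), h (e i))) (fun i => by positivity) hadm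
  have hI1 : 1 < I.card := by
    norm_num at hI
    exact hI
  obtain ⟨x, hx, y, hy, hxy⟩ := one_lt_card.1 hI1
  have key : ∀ i ∈ I, ∀ j ∈ I, i < j → ∃ i j : Fin 4, i < j ∧ Dens η (a ^ (e j - e i)) (b ^ (e j - e i)) (c * (Pool.Agent.IT.br a b (e j - e i) : ℕ)) := by
    intro i hi j hj hij
    refine ⟨i, j, hij, ?_⟩
    have h1 := dens_of _ _ _ _ (hI2 j hj i hi hij.ne')
    dsimp only at h1
    obtain ⟨m, hm⟩ : ∃ m, e j = e i + m := ⟨e j - e i, by have := he hij; omega⟩
    have hm2 : e j - e i = m := by omega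
    have hE : e i + m ≤ E := by rw [← hm]; exact heE j
    rw [hm2]
    rw [hm] at h1
    obtain ⟨G, hG⟩ : ∃ G : ℕ, G = a ^ (E - (e i + m)) * b ^ (e i) := ⟨_, rfl⟩
    have hG1 : 0 < G := by rw [hG]; positivity
    have hf : a ^ (E - (e i + m)) * b ^ (e i + m) = G * b ^ m := by rw [hG, pow_add]; ring
    have hg : a ^ (E - e i) * b ^ (e i) = G * a ^ m := by
      have hEe : E - e i = (E - (e i + m)) + m := by omega
      rw [hG, hEe, pow_add]
      ring
    rw [hf, hg] at h1
    have hgcd : Nat.gcd (G * b ^ m) (G * a ^ m) = G := by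
      rw [Nat.gcd_mul_left]
      have : Nat.gcd (b ^ m) (a ^ m) = 1 := Nat.Coprime.pow _ _ hab.symm
      rw [this, mul_one]
    rw [hgcd, Nat.mul_div_cancel_left _ hG1, Nat.mul_div_cancel_left _ hG1] at h1
    have h2 := Pool.Agent.IT.PRI_orbit a b E c h hh (e i) m hE
    have e1 : ((a ^ m : ℕ) : ℤ) * h (e i + m) - ((b ^ m : ℕ) : ℤ) * h (e i) = c * (Pool.Agent.IT.br a b m : ℕ) := by
      push_cast
      push_cast at h2
      linarith
    rw [e1] at h1
    exact h1
  rcases lt_or_gt_of_ne hxy with h4 | h4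
  · exact key x hx y hy h4
  · exact key y hy x hx h4

/-- the four exponents `0, 1, 2, 3` -/
theorem mono1 : StrictMono (![0, 1, 2, 3] : Fin 4 → ℕ) := by
  intro i j hij
  fin_cases i <;> fin_cases j <;> simp_all

/-- the four exponents `0, 1, 3, 4` -/
theorem mono2 : StrictMono (![0, 1, 3, 4] : Fin 4 → ℕ) := by
  intro i j hij
  fin_cases i <;> fin_cases j <;> simp_all

theorem dif1 : ∀ i j : Fin 4, i < j → (![0, 1, 2, 3] : Fin 4 → ℕ) j - (![0, 1, 2, 3] : Fin 4 → ℕ) i = 1 ∨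
    (![0, 1, 2, 3] : Fin 4 → ℕ) j - (![0, 1, 2, 3] : Fin 4 → ℕ) i = 2 ∨ (![0, 1, 2, 3] : Fin 4 → ℕ) j - (![0, 1, 2, 3] : Fin 4 → ℕ) i = 3 := by
  decide

theorem dif2 : ∀ i j : Fin 4, i < j → (![0, 1, 3, 4] : Fin 4 → ℕ) j - (![0, 1, 3, 4] : Fin 4 → ℕ) i = 1 ∨
    (![0, 1, 3, 4] : Fin 4 → ℕ) j - (![0, 1, 3, 4] : Fin 4 → ℕ) i = 2 ∨ (![0, 1, 3, 4] : Fin 4 → ℕ) j - (![0, 1, 3, 4] : Fin 4 → ℕ) i = 3 ∨
    (![0, 1, 3, 4] : Fin 4 → ℕ) j - (![0, 1, 3, 4] : Fin 4 → ℕ) i = 4 := by
  decide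

theorem br1 (a b : ℕ) (c : ℤ) (η : ℝ) : Dens η (a ^ 1) (b ^ 1) (c * (Pool.Agent.IT.br a b 1 : ℕ)) ↔ Dens η a b c := by
  have e : (c * (Pool.Agent.IT.br a b 1 : ℕ) : ℤ) = c := by simp [Pool.Agent.IT.br]
  rw [e, pow_one, pow_one]

theorem br2 (a b : ℕ) (c : ℤ) (η : ℝ) : Dens η (a ^ 2) (b ^ 2) (c * (Pool.Agent.IT.br a b 2 : ℕ)) ↔ Dens η (a ^ 2) (b ^ 2) ((a + b) * c) := by
  have e : (c * (Pool.Agent.IT.br a b 2 : ℕ) : ℤ) = (a + b) * c := by
    simp [Pool.Agent.IT.br, sum_range_succ]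
    ring
  rw [e]

theorem br3 (a b : ℕ) (c : ℤ) (η : ℝ) : Dens η (a ^ 3) (b ^ 3) (c * (Pool.Agent.IT.br a b 3 : ℕ)) ↔ Dens η (a ^ 3) (b ^ 3) ((a ^ 2 + a * b + b ^ 2) * c) := by
  have e : (c * (Pool.Agent.IT.br a b 3 : ℕ) : ℤ) = (a ^ 2 + a * b + b ^ 2) * c := by
    simp [Pool.Agent.IT.br, sum_range_succ]
    ring
  rw [e]

theorem br4 (a b : ℕ) (c : ℤ) (η : ℝ) :
    Dens η (a ^ 4) (b ^ 4) (c * (Pool.Agent.IT.br a b 4 : ℕ)) ↔ Dens η (a ^ 4) (b ^ 4) ((a ^ 3 + a ^ 2 * b + a * b ^ 2 + b ^ 3) * c) := by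
  have e : (c * (Pool.Agent.IT.br a b 4 : ℕ) : ℤ) = (a ^ 3 + a ^ 2 * b + a * b ^ 2 + b ^ 3) * c := by
    simp [Pool.Agent.IT.br, sum_range_succ]
    ring
  rw [e]

/-- **Every case of Q1: one of four explicit equations is true with a positive proportion in every long interval of every class near its `c`.** -/
theorem result :
    (∃ η : ℝ, 0 < η ∧ ∀ (a b : ℕ) (c : ℤ), Admissible a b c →
      Dens η a b c ∨ Dens η (a ^ 2) (b ^ 2) ((a + b) * c) ∨ Dens η (a ^ 3) (b ^ 3) ((a ^ 2 + a * b + b ^ 2) * c) ∨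
        (((3 : ℤ) ∣ (a : ℤ) - b ∧ ¬ (3 : ℤ) ∣ a * b * c) ∧ Dens η (a ^ 4) (b ^ 4) ((a ^ 3 + a ^ 2 * b + a * b ^ 2 + b ^ 3) * c))) ∧
    ∀ k : ℕ, 1 ≤ k → ∃ η : ℝ, 0 < η ∧ ∀ (s : Fin k → ℕ) (h : Fin k → ℤ), (∀ i, 0 < s i) →
      (∀ p : ℕ, p.Prime → ∃ n : ℕ, ∀ i, ¬ (p : ℤ) ∣ s i * n + h i) →
        ∃ I : Finset (Fin k), (k : ℝ) / 4 < I.card ∧ ∀ i ∈ I, ∀ j ∈ I, i ≠ j → ∀ a b : ℕ, Nat.Coprime a b → a * s i = b * s j →
          Dens η a b (a * h i - b * h j) := by
  classical
  refine ⟨?_, ?_⟩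
  · obtain ⟨η, hη, h1⟩ := Pool.Agent.SK.MAIN Pool.Agent.AT.Q_all 4 (by norm_num)
    refine ⟨η, hη, fun a b c hc => ?_⟩
    by_cases h3 : (3 : ℤ) ∣ (a : ℤ) - b ∧ ¬ (3 : ℤ) ∣ a * b * c
    · obtain ⟨i, j, hij, h4⟩ := orbit η h1 a b c hc ![0, 1, 3, 4] 4 mono2 (by intro i; fin_cases i <;> simp) (Or.inr (Or.inr ⟨2, by
        intro i
        fin_cases i <;> norm_num⟩))
      obtain ⟨m, hm⟩ : ∃ m, m = (![0, 1, 3, 4] : Fin 4 → ℕ) j - (![0, 1, 3, 4] : Fin 4 → ℕ) i := ⟨_, rfl⟩
      have hm1 : m = 1 ∨ m = 2 ∨ m = 3 ∨ m = 4 := by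
        rw [hm]
        exact dif2 i j hij
      rw [← hm] at h4
      rcases hm1 with h5 | h5 | h5 | h5 <;> rw [h5] at h4
      · exact Or.inl ((br1 a b c η).1 h4)
      · exact Or.inr (Or.inl ((br2 a b c η).1 h4))
      · exact Or.inr (Or.inr (Or.inl ((br3 a b c η).1 h4)))
      · exact Or.inr (Or.inr (Or.inr ⟨h3, (br4 a b c η).1 h4⟩))
    · obtain ⟨i, j, hij, h4⟩ := orbit η h1 a b c hc ![0, 1, 2, 3] 3 mono1 (by intro i; fin_cases i <;> simp) (by
        by_cases h5 : (3 : ℤ) ∣ a * b * c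
        · exact Or.inl h5
        · exact Or.inr (Or.inl fun h6 => h3 ⟨h6, h5⟩))
      obtain ⟨m, hm⟩ : ∃ m, m = (![0, 1, 2, 3] : Fin 4 → ℕ) j - (![0, 1, 2, 3] : Fin 4 → ℕ) i := ⟨_, rfl⟩
      have hm1 : m = 1 ∨ m = 2 ∨ m = 3 := by
        rw [hm]
        exact dif1 i j hij
      rw [← hm] at h4
      rcases hm1 with h5 | h5 | h5 <;> rw [h5] at h4
      · exact Or.inl ((br1 a b c η).1 h4)
      · exact Or.inr (Or.inl ((br2 a b c η).1 h4))
      · exact Or.inr (Or.inr (Or.inl ((br3 a b c η).1 h4)))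
  · intro k hk
    obtain ⟨η, hη, h1⟩ := Pool.Agent.SK.MAIN Pool.Agent.AT.Q_all k hk
    refine ⟨η, hη, fun s h hs hadm => ?_⟩
    obtain ⟨I, hI, h2⟩ := h1 (fun i => (s i, h i)) hs hadm
    refine ⟨I, hI, fun i hi j hj hij a b hab hsab => ?_⟩
    have h3 := dens_of _ _ _ _ (h2 i hi j hj hij)
    dsimp only at h3
    obtain ⟨d, hd⟩ : ∃ d : ℕ, d = Nat.gcd (s i) (s j) := ⟨_, rfl⟩
    have hd0 : 0 < d := by rw [hd]; exact Nat.gcd_pos_of_pos_left _ (hs i)
    obtain ⟨x, hx⟩ : d ∣ s i := by rw [hd]; exact Nat.gcd_dvd_left _ _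
    obtain ⟨y, hy⟩ : d ∣ s j := by rw [hd]; exact Nat.gcd_dvd_right _ _
    have hx0 : 0 < x := Nat.pos_of_ne_zero fun h0 => by
      have := hs i
      rw [hx, h0, mul_zero] at this
      omega
    have hxy : Nat.Coprime x y := by
      have h4 : Nat.gcd (d * x) (d * y) = d := by rw [← hx, ← hy]; exact hd.symm
      rw [Nat.gcd_mul_left] at h4
      exact Nat.eq_of_mul_eq_mul_left hd0 (by rw [mul_one]; exact h4)
    have h5 : a * x = b * y := by
      apply Nat.eq_of_mul_eq_mul_left hd0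
      calc d * (a * x) = a * (d * x) := by ring
        _ = b * (d * y) := by rw [← hx, ← hy]; exact hsab
        _ = d * (b * y) := by ring
    have h6 : a = y := by
      apply Nat.dvd_antisymm
      · exact hab.dvd_of_dvd_mul_left ⟨x, h5.symm⟩
      · exact hxy.symm.dvd_of_dvd_mul_right ⟨b, by rw [h5]; ring⟩
    have h7 : b = x := by
      have hy0 : 0 < y := Nat.pos_of_ne_zero fun h0 => by
        have := hs j
        rw [hy, h0, mul_zero] at this
        omega
      rw [h6] at h5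
      exact Nat.eq_of_mul_eq_mul_right hy0 (by rw [← h5]; ring)
    have h8 : s j / Nat.gcd (s i) (s j) = a := by
      rw [← hd, hy, h6]
      exact Nat.mul_div_cancel_left _ hd0
    have h9 : s i / Nat.gcd (s i) (s j) = b := by
      rw [← hd, hx, h7]
      exact Nat.mul_div_cancel_left _ hd0
    rw [h8, h9] at h3
    exact h3

end Pool.Agent.Results.MP_bf63dc_nt.EveryCase
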