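import Pool.Agent.helper72.MM.O3
import Pool.Agent.helper34.EC9.E2
import Pool.Agent.helper43.IT.K4R
import Pool.Agent.helper98.IT.K4C
import Pool.Agent.helper38.AT.All

/-!
# A third of the iterates of EVERY case of Q1

For a case `(a, b, c)` of Q1 let `T x = (b x + c) / a`; Q1 says that `T` maps infinitely many primes to primes (`a p - b q = c`, `p = T q`). The iterates of `T` are again
cases of Q1: `T^m` is the equation `a^m p - b^m q = (a^(m-1) + a^(m-2) b + ... + b^(m-1)) c`.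

THEOREM. (1) For EVERY case `(a, b, c)` of Q1 the set of the `m ≥ 1` for which `T^m` maps infinitely many primes to primes has lower Banach density at
least `1/3`: for every `ε > 0` all intervals of `M ≥ M₀(a, b, c, ε)` consecutive positive integers contain at least `(1/3 - ε) M` such `m`.
(2) With `M₀(ε)` ABSOLUTE: for EVERY case `(a, b, c)` and all intervals of `M ≥ M₀` consecutive positive integers: for all but `ε M` of the `m` in the interval one of
`T^m, T^(2m), T^(3m)` maps infinitely many primes to primes, or, only needed if `3` divides `a - b` and not `a b c`, `T^(4m)`.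
(3) Uniformly in the case: for every `ε > 0` there is an ABSOLUTE `N` such that for EVERY case `(a, b, c)` and EVERY set `E` of at least `N` natural numbers (if `3` divides
`a - b` and not `a b c`: every such set which misses a class modulo 3) at least `(1/3 - ε) |E|²` ordered pairs `(e, e')` of `E` have: `T^|e - e'|` maps infinitely many
primes to primes.
(4) Special cases `c = b - a` and `c = a - b` (Q1 implies that every positive rational number is `(p + 1) / (q + 1)` and `(p - 1) / (q - 1)` for infinitely many pairs of primes): for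
EVERY positive rational number `r ≠ 1` all intervals of `M ≥ M₀(r, ε)` consecutive positive integers contain at least `(1/3 - ε) M` integers `m` with
`r^m = (p + 1) / (q + 1)` for infinitely many pairs of primes `p, q`, and the same with `r^m = (p - 1) / (q - 1)`.

PROOF. By the theorem on almost all quadruples of linear forms (a sieve of Maynard and Tao for clusters of forms, proved in `Pool/Agent/helper38/AT`) all but a small proportion of the admissible
quadruples in a product of four large sets of linear forms contain two forms which are prime simultaneously for infinitely many `n`. For a finite set of exponents `e ≤ N` the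
forms `f_e(n) = a^(N-e) b^e n + h_e`, `a h_(e+1) = b h_e + c`, satisfy `f_(e') = T^(e'-e) f_e`, and quadruples of them are admissible, if `3 ∣ a b c` or `3 ∤ a - b` or if a class of exponents modulo 3
is missing. So with the inequality of Moon and Moser a third of the pairs of exponents are true: (3). (2) (by helper34, `Pool/Agent/helper34/EC9`) follows with the removal lemma for `K_4`. For (1) join two integers if their distance is not the exponent of a true
iterate; in every spread sequence of integers in the classes `0, 1` modulo 3 only a small proportion of the quadruples are complete. Take the largest `r ≤ 3` such that a positive proportion of the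
`r`-tuples of some spread sequence is complete. For a long interval `J` and some complete `r`-tuple `e_1, ..., e_r` almost all `y + t` and `y - t`, `t ∈ J`, in the classes `0, 1` modulo 3 are not joined to all the `e_i`, so
at a true distance from one of them. In every case the three densities `d_0, d_1, d_2` of the true exponents in the three classes modulo 3 in `J` satisfy `d_0 + d_1 + d_2 ≥ 1`: for instance if `r = 3`,
`e_1 = e_2 = 0`, `e_3 = 1` modulo 3 then `2 d_1 + d_0 ≥ 1` (from `y + t = 1`) and `2 d_2 + d_0 ≥ 1` (from `y - t = 1`).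
-/

set_option autoImplicit false

namespace Pool.Agent.Results.MP_bf63dc_nt.EveryOrbit

open Finset

/-- The conditions of Q1 on `a, b, c`. -/
def Admissible (a b : ℕ) (c : ℤ) : Prop :=
  0 < a ∧ 0 < b ∧ c ≠ 0 ∧ Nat.Coprime a b ∧ IsCoprime (a : ℤ) c ∧ IsCoprime (b : ℤ) c ∧
    ¬ (Odd a ∧ Odd b ∧ Odd c)

/-- `(a, b, c)` satisfies the conditions of Q1 and `a p - b q = c` has infinitely many solutions in
primes `p, q`. -/
def TrueCase (a b : ℕ) (c : ℤ) : Prop :=
  Admissible a b c ∧ {pq : ℕ × ℕ | pq.1.Prime ∧ pq.2.Prime ∧ (a : ℤ) * pq.1 - b * pq.2 = c}.Infinite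

/-- the iterate `T^m` of `T x = (b x + c) / a` is a true case of Q1: `a^m p - b^m q = (a^(m-1) + a^(m-2) b + ... + b^(m-1)) c` -/
def TrueIterate (a b : ℕ) (c : ℤ) (m : ℕ) : Prop :=
  TrueCase (a ^ m) (b ^ m) ((∑ i ∈ range m, (a : ℤ) ^ i * (b : ℤ) ^ (m - 1 - i)) * c)

theorem hT (a b : ℕ) (c : ℤ) : Pool.Agent.helper85.FC.TrueCase a b c ↔ TrueCase a b c := by
  unfold Pool.Agent.helper85.FC.TrueCase TrueCase Admissible
  simp only [and_assoc]

theorem hAd (a b : ℕ) (c : ℤ) : Pool.Agent.IT.Ad a b c ↔ Admissible a b c := Iff.rfl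

theorem hIt (a b m : ℕ) (c : ℤ) : Pool.Agent.IT.It a b c m ↔ TrueIterate a b c m := by
  unfold Pool.Agent.IT.It Pool.Agent.IT.br TrueIterate
  rw [hT]
  push_cast
  rw [mul_comm]

theorem adm_shift (a b : ℕ) (ha : 0 < a) (hb : 0 < b) (hab : Nat.Coprime a b) (hne : (b : ℤ) - a ≠ 0) (s : ℤ) (hs : s = 1 ∨ s = -1) :
    Admissible a b (s * ((b : ℤ) - a)) := by
  have h1 : IsCoprime (a : ℤ) (b : ℤ) := Nat.isCoprime_iff_coprime.2 hab
  have h2 : IsCoprime (a : ℤ) ((b : ℤ) - a) := by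
    obtain ⟨x, y, h⟩ := h1
    exact ⟨x + y, y, by linear_combination h⟩
  have h3 : IsCoprime (b : ℤ) ((b : ℤ) - a) := by
    obtain ⟨x, y, h⟩ := h1
    exact ⟨x + y, -x, by linear_combination h⟩
  have key : ∀ z : ℤ, IsCoprime z ((b : ℤ) - a) → IsCoprime z (s * ((b : ℤ) - a)) := by
    intro z hz
    rcases hs with rfl | rfl
    · rwa [one_mul]
    · rw [neg_one_mul, IsCoprime.neg_right_iff]
      exact hz
  refine ⟨ha, hb, ?_, hab, key _ h2, key _ h3, ?_⟩
  · rcases hs with rfl | rfl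
    · rwa [one_mul]
    · rw [neg_one_mul, neg_ne_zero]
      exact hne
  · rintro ⟨⟨x, hx⟩, ⟨y, hy⟩, ⟨z, hz⟩⟩
    rcases hs with rfl | rfl <;> omega

theorem shift (r : ℚ) (a b : ℕ) (hab : r = (b : ℚ) / a) (ha : 0 < a) (s : ℤ) (hs : s = 1 ∨ s = -1) (m : ℕ)
    (h : TrueIterate a b (s * ((b : ℤ) - a)) m) :
    {pq : ℕ × ℕ | pq.1.Prime ∧ pq.2.Prime ∧ r ^ m = ((pq.1 : ℚ) + s) / ((pq.2 : ℚ) + s)}.Infinite := by
  refine h.2.mono ?_
  rintro ⟨p, q⟩ ⟨hp, hq, he⟩
  refine ⟨hp, hq, ?_⟩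
  dsimp only at he hp hq ⊢
  have h1 := geom_sum₂_mul (a : ℤ) (b : ℤ) m
  have h2 : (∑ i ∈ range m, (a : ℤ) ^ i * (b : ℤ) ^ (m - 1 - i)) * (s * ((b : ℤ) - a)) = s * ((b : ℤ) ^ m - (a : ℤ) ^ m) := by
    linear_combination -s * h1
  rw [h2] at he
  push_cast at he
  have h3 : (a : ℤ) ^ m * ((p : ℤ) + s) = (b : ℤ) ^ m * ((q : ℤ) + s) := by linear_combination he
  have h4 : (a : ℚ) ^ m * ((p : ℚ) + s) = (b : ℚ) ^ m * ((q : ℚ) + s) := by exact_mod_cast h3
  have ha' : (a : ℚ) ^ m ≠ 0 := by positivity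
  have hq' : (q : ℚ) + s ≠ 0 := by
    have h5 : (q : ℤ) + s ≠ 0 := by
      have h6 := hq.two_le
      rcases hs with rfl | rfl <;> omega
    exact_mod_cast h5
  rw [hab, div_pow, div_eq_div_iff ha' hq']
  linear_combination -h4

/-- **A third of the iterates of every case of Q1.** -/
theorem result :
    (∀ (a b : ℕ) (c : ℤ), Admissible a b c → ∀ ε : ℝ, 0 < ε → ∃ M₀ : ℕ, ∀ M : ℕ, M₀ ≤ M → ∀ u : ℕ,
      (1 / 3 - ε) * M ≤ ({m : ℕ | (u < m ∧ m ≤ u + M) ∧ TrueIterate a b c m}.ncard : ℝ)) ∧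
    (∀ ε : ℝ, 0 < ε → ∃ M₀ : ℕ, ∀ (a b : ℕ) (c : ℤ), Admissible a b c → ∀ M : ℕ, M₀ ≤ M → ∀ u : ℕ,
      ({m : ℕ | (u < m ∧ m ≤ u + M) ∧ ¬ (TrueIterate a b c m ∨ TrueIterate a b c (2 * m) ∨ TrueIterate a b c (3 * m) ∨
        (((3 : ℤ) ∣ (a : ℤ) - b ∧ ¬ (3 : ℤ) ∣ a * b * c) ∧ TrueIterate a b c (4 * m)))}.ncard : ℝ) ≤ ε * M) ∧
    (∀ ε : ℝ, 0 < ε → ∃ N : ℕ, ∀ (a b : ℕ) (c : ℤ), Admissible a b c → ∀ E : Finset ℕ, N ≤ #E →
      ((3 : ℤ) ∣ (a : ℤ) - b ∧ ¬ (3 : ℤ) ∣ a * b * c → ∃ r : ℤ, ∀ e ∈ E, ¬ (3 : ℤ) ∣ ((e : ℕ) : ℤ) - r) →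
      (1 / 3 - ε) * (#E : ℝ) ^ 2 ≤ 2 * ({p : ℕ × ℕ | p.1 ∈ E ∧ p.2 ∈ E ∧ p.1 < p.2 ∧ TrueIterate a b c (p.2 - p.1)}.ncard : ℝ)) ∧
    ∀ r : ℚ, 0 < r → r ≠ 1 → ∀ s : ℤ, s = 1 ∨ s = -1 → ∀ ε : ℝ, 0 < ε → ∃ M₀ : ℕ, ∀ M : ℕ, M₀ ≤ M → ∀ u : ℕ,
      (1 / 3 - ε) * M ≤ ({m : ℕ | (u < m ∧ m ≤ u + M) ∧
        {pq : ℕ × ℕ | pq.1.Prime ∧ pq.2.Prime ∧ r ^ m = ((pq.1 : ℚ) + s) / ((pq.2 : ℚ) + s)}.Infinite}.ncard : ℝ) := by
  classical
  have hQ := Pool.Agent.AT.Q_all 4 (by norm_num)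
  have main : ∀ (a b : ℕ) (c : ℤ), Admissible a b c → ∀ ε : ℝ, 0 < ε → ∃ M₀ : ℕ, ∀ M : ℕ, M₀ ≤ M → ∀ u : ℕ,
      (1 / 3 - ε) * M ≤ ({m : ℕ | (u < m ∧ m ≤ u + M) ∧ TrueIterate a b c m}.ncard : ℝ) := by
    intro a b c hc ε hε
    obtain ⟨M₀, h⟩ := Pool.Agent.MM.orb_dens hQ a b c ((hAd a b c).2 hc) ε hε
    refine ⟨M₀, fun M hM u => ?_⟩
    refine (h M hM u).trans ?_
    rw [← Set.ncard_coe_finset]
    refine Nat.cast_le.2 (Set.ncard_le_ncard ?_ ?_)
    · intro m hm
      rw [mem_coe, mem_filter, mem_Ioc] at hm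
      exact ⟨hm.1, (hIt a b m c).1 hm.2⟩
    · refine (finite_toSet (Ioc u (u + M))).subset ?_
      rintro m ⟨hm, -⟩
      rw [mem_coe, mem_Ioc]
      exact hm
  refine ⟨main, ?_, ?_, ?_⟩
  · intro ε hε
    obtain ⟨M₀, h⟩ := Pool.Agent.EC9.E2 (Pool.Agent.IT.GCT (Pool.Agent.IT.K4R Pool.Agent.IT.K4C)) Pool.Agent.AT.QPc_all Pool.Agent.IT.ORB
      Pool.Agent.IT.ADO Pool.Agent.IT.PRI ε hε
    refine ⟨M₀, fun a b c hc M hM u => ?_⟩
    refine le_trans ?_ (h a b c ((hAd a b c).2 hc) M hM u)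
    rw [← Set.ncard_coe_finset]
    refine Nat.cast_le.2 (Set.ncard_le_ncard ?_ (finite_toSet _))
    rintro m ⟨hm, hm2⟩
    rw [mem_coe, mem_filter, mem_Ioc, hIt, hIt, hIt, hIt]
    exact ⟨hm, hm2⟩
  · intro ε hε
    obtain ⟨N, hN⟩ := Pool.Agent.MM.orb_pairs hQ ε hε
    refine ⟨N, fun a b c hc E hE h3 => ?_⟩
    refine (hN a b c ((hAd a b c).2 hc) E hE ?_).trans ?_
    · by_cases h1 : (3 : ℤ) ∣ a * b * c
      · exact Or.inl h1
      · by_cases h2 : (3 : ℤ) ∣ (a : ℤ) - b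
        · exact Or.inr (Or.inr (h3 ⟨h2, h1⟩))
        · exact Or.inr (Or.inl h2)
    · rw [← Set.ncard_coe_finset]
      refine mul_le_mul_of_nonneg_left (Nat.cast_le.2 (Set.ncard_le_ncard ?_ ?_)) (by norm_num)
      · intro p hp
        rw [mem_coe, mem_filter, mem_product] at hp
        exact ⟨hp.1.1, hp.1.2, hp.2.1, (hIt a b _ c).1 hp.2.2⟩
      · refine (finite_toSet (E ×ˢ E)).subset ?_
        rintro p ⟨h1, h2, -⟩
        rw [mem_coe, mem_product]
        exact ⟨h1, h2⟩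
  · intro r hr hr1 s hs ε hε
    obtain ⟨b, hb⟩ : ∃ b : ℕ, (b : ℤ) = r.num := ⟨r.num.toNat, Int.toNat_of_nonneg (Rat.num_pos.2 hr).le⟩
    have hb0 : 0 < b := by
      have h1 := Rat.num_pos.2 hr
      omega
    have hrab : r = (b : ℚ) / (r.den : ℕ) := by
      have h1 := (Rat.num_div_den r).symm
      rw [← hb, Int.cast_natCast] at h1
      exact h1
    have hcop : Nat.Coprime r.den b := by
      have h1 := r.reduced
      rw [← hb, Int.natAbs_natCast] at h1
      exact h1.symm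
    have hne : (b : ℤ) - (r.den : ℕ) ≠ 0 := by
      intro h0
      apply hr1
      rw [hrab]
      have h1 : (b : ℤ) = (r.den : ℕ) := by linarith
      have h2 : b = r.den := by exact_mod_cast h1
      rw [h2]
      exact div_self (by exact_mod_cast r.den_nz)
    obtain ⟨M₀, h⟩ := main r.den b (s * ((b : ℤ) - (r.den : ℕ))) (adm_shift r.den b r.den_pos hb0 hcop hne s hs) ε hε
    refine ⟨M₀, fun M hM u => ?_⟩
    refine (h M hM u).trans ?_
    refine Nat.cast_le.2 (Set.ncard_le_ncard ?_ ?_)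
    · rintro m ⟨h1, h2⟩
      exact ⟨h1, shift r r.den b hrab r.den_pos s hs m h2⟩
    · refine (finite_toSet (Ioc u (u + M))).subset ?_
      rintro m ⟨hm, -⟩
      rw [mem_coe, mem_Ioc]
      exact hm

end Pool.Agent.Results.MP_bf63dc_nt.EveryOrbit
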