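import Pool.Agent.helper19.HF.FinF
import Pool.Agent.helper53.HF.LRU

/-!
# Of any four different positive integers two have a ratio for which more than half of all `c` in long windows are true

`c` is true for `(a, b)` if `(a, b, c)` satisfies the conditions of Q1 and `a p - b q = c` has infinitely many solutions in primes `p, q` (`TrueCase a b c`).

THEOREM. Of ANY four different positive integers there are two, in lowest terms `a : b`, with `Half a b`: some arithmetic progression has arbitrarily long windows with at least the proportion `1/2 + 3/10^6` of true terms for `(a, b)`.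
In particular (`a³, a² b, a b², b³`) for EVERY coprime `a ≠ b` one of the pairs `(a, b)`, `(a², b²)`, `(a³, b³)` has this property. No exceptions, nothing assumed.

PROOF. The input is the theorem on almost all `k`-tuples of linear forms (a sieve of Maynard and Tao for clusters of forms, proved in `Pool/Agent/helper38/AT`): more than `α k`, `α = 1/4 + 1/500000`, of the forms of almost every tuple in a product of large sets of forms are prime simultaneously for infinitely many `n`.
Suppose that for each of the six pairs and every progression all long windows have density at most `1/2 + 3/10^6`. Take the four blocks of forms `s_β n + 1 + D u`, `u < R`. Pinning (increment of energy; Bessel's inequality) gives functions `a_β` on the blocks with sum of the means `≥ 4 α - ε > 1` such that almost all pairs of points of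
`a_β × a_β'` give a true `c`. If both means are `≥ e` then the popular values of `a u - b v` (`a : b` = the ratio of the two slopes) are true, they have an almost period `p q` with a large prime `p` and bounded `q` (the method of Croot and Sisask), and by POLLARD's theorem modulo `p` their density is at least the sum of the two means. So
`mean(a_β) + mean(a_β') ≤ 1/2 + 3/10^6 + e` for all pairs of means `≥ e`. Then the sum of the four means is `< 4 α - ε`: contradiction.
-/

set_option autoImplicit false

namespace Pool.Agent.Results.MP_bf63dc_nt.FourIntegers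

open Finset

/-- The conditions of Q1 on `a, b, c`. -/
def Admissible (a b : ℕ) (c : ℤ) : Prop :=
  0 < a ∧ 0 < b ∧ c ≠ 0 ∧ Nat.Coprime a b ∧ IsCoprime (a : ℤ) c ∧ IsCoprime (b : ℤ) c ∧
    ¬ (Odd a ∧ Odd b ∧ Odd c)

/-- `(a, b, c)` satisfies the conditions of Q1 and `a p - b q = c` has infinitely many solutions in
primes `p, q`. -/
def TrueCase (a b : ℕ) (c : ℤ) : Prop :=
  Admissible a b c ∧ {pq : ℕ × ℕ | pq.1.Prime ∧ pq.2.Prime ∧ (a : ℤ) * pq.1 - b * pq.2 = c}.Infinite

/-- some progression `r + q ℤ` has arbitrarily long windows with at least the proportion `1/2 + 3/10^6` of true terms for `(a, b)` -/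
def Half (a b : ℕ) : Prop :=
  ∃ (q : ℕ) (r : ℤ), 1 ≤ q ∧ ∀ T₀ : ℕ, ∃ T : ℕ, T₀ ≤ T ∧ ∃ u : ℤ,
    (1 / 2 + 3 / 10 ^ 6) * (T : ℝ) ≤ ({t : ℕ | t < T ∧ TrueCase a b (r + q * (u + t))}.ncard : ℝ)

theorem hT : Pool.Agent.helper85.FC.TrueCase = TrueCase := by
  funext a b c
  unfold Pool.Agent.helper85.FC.TrueCase TrueCase Admissible
  simp only [and_assoc]

theorem half_of (a b : ℕ) (h : Pool.Agent.HF.UB (Pool.Agent.HF.TC a b) (1 / 2 + 3 / 10 ^ 6)) : Half a b := by
  classical
  obtain ⟨q, r, hq, h⟩ := h
  refine ⟨q, r, hq, fun T₀ => ?_⟩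
  obtain ⟨T, hT', u, hu⟩ := h T₀
  refine ⟨T, hT', u, hu.trans (le_of_eq ?_)⟩
  have e2 : {t : ℕ | t < T ∧ TrueCase a b (r + q * (u + t))} = ((range T).filter (fun t : ℕ => Pool.Agent.HF.TC a b (r + q * (u + (t : ℕ)))) : Finset ℕ) := by
    ext t
    simp only [Set.mem_ofPred_eq, coe_filter, mem_range]
    unfold Pool.Agent.HF.TC
    rw [hT]
  rw [e2, Set.ncard_coe_finset]

/-- **Four integers.** -/
theorem result :
    (∀ s : Fin 4 → ℕ, (∀ i, 0 < s i) → Function.Injective s →
      ∃ i j : Fin 4, i ≠ j ∧ Half (s j / Nat.gcd (s i) (s j)) (s i / Nat.gcd (s i) (s j))) ∧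
    ∀ a b : ℕ, 1 ≤ a → 1 ≤ b → Nat.Coprime a b → a ≠ b → ∃ m : ℕ, 1 ≤ m ∧ m ≤ 3 ∧ Half (a ^ m) (b ^ m) := by
  have hLRU : Pool.Agent.HF.LRU_stmt := Pool.Agent.HF.LRU Pool.Agent.HF.APZ (Pool.Agent.HF.LAZ (Pool.Agent.HF.PPZ Pool.Agent.HF.POL))
  constructor
  · intro s hs hinj
    obtain ⟨i, j, hij, h⟩ := Pool.Agent.HF.four_integers hLRU s hs hinj
    exact ⟨i, j, hij, half_of _ _ h⟩
  · intro a b ha hb hab hne
    obtain ⟨m, hm1, hm3, h⟩ := Pool.Agent.HF.three_powers hLRU a b ha hb hab hne
    exact ⟨m, hm1, hm3, half_of _ _ h⟩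

end Pool.Agent.Results.MP_bf63dc_nt.FourIntegers
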