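import Pool.Agent.helper99.IT.GENS
import Pool.Agent.helper8.IT.GEN
import Pool.Agent.helper9.IT.ORB
import Pool.Agent.helper21.IT.ADF
import Pool.Agent.helper24.IT.PRI
import Pool.Agent.helper29.IT.GCT
import Pool.Agent.helper34.IT.ITG
import Pool.Agent.helper43.IT.K4R
import Pool.Agent.helper49.IT.ADO
import Pool.Agent.helper98.IT.K4C
import Pool.Agent.helper38.AT.All

/-!
# All `a, b` and almost all `c`: one of four explicit cases of Q1 is true

For a case `(a, b, c)` of Q1 let `T x = (b x + c) / a`; Q1 says that `T` maps infinitely many primes to primes (`a p - b q = c`, `p = T q`). The iterates of `T` are again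
cases of Q1: `T^m` is the equation `a^m p - b^m q = (a^(m-1) + a^(m-2) b + ... + b^(m-1)) c`.

THEOREM. (1) For ALL coprime `a, b ≥ 1` and all `c` outside a set of upper Banach density `0` (for every `ε > 0` at most `ε M` of any `M ≥ M₀(a, b, ε)` consecutive integers are
exceptions): if `(a, b, c)` satisfies the conditions of Q1 then at least one of `T, T², T³, T⁴` maps infinitely many primes to primes, that is, one of
`a p - b q = c`, `a² p - b² q = (a + b) c`, `a³ p - b³ q = (a² + a b + b²) c`, `a⁴ p - b⁴ q = (a³ + a² b + a b² + b³) c` has infinitely many prime solutions; the last one is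
needed only if `a ≡ b` modulo 3 and `3` does not divide `a b c`.
(2) The general form of (1): let `s_i ≥ 1`, `α_i`, `β_i` be integers, `i < 4`, with `s_j α_i ≠ s_i α_j` for `i ≠ j`. For all `c` outside a set of upper Banach density `0`: if the four
linear forms `s_i n + α_i c + β_i` are admissible then two of them are prime simultaneously for infinitely many `n`.

PROOF (`Pool/Agent/helper99/IT/Spec.lean`). By the theorem on almost all quadruples of linear forms (a sieve of Maynard and Tao for clusters of forms, proved in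
`Pool/Agent/helper38/AT`) for all sets `F_1, ..., F_4` of at least `L` forms all but `C |F_1| |F_2| |F_3| |F_4| / L^δ` of the admissible quadruples in `F_1 × F_2 × F_3 × F_4` contain two forms which are prime
simultaneously infinitely often. A one-parameter family is a thin subset of such a product. Let `B` be the set of the parameters `c` for which this fails, and suppose that `B` has positive upper Banach
density. Join the forms `s_i n + h` and `s_j n + h'` if they are, up to a shift of `n`, the forms `i`, `j` of the family for some parameter in `B`. The members of the family with parameter in `B` and their shifts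
give `ε L²` complete graphs `K_4` without common edges in this 4-partite graph with `O(L)` vertices, so by the removal lemma for `K_4` (proved from Szemerédi's regularity lemma) there are at
least `δ L⁴` complete graphs `K_4`: a contradiction. (1): the forms `n, T n, T² n, T³ n` (or `n, T n, T³ n, T⁴ n` if they are not admissible at 3).
-/

set_option autoImplicit false

namespace Pool.Agent.Results.MP_bf63dc_nt.FourIterates

open Finset

/-- The conditions of Q1 on `a, b, c`. -/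
def Admissible (a b : ℕ) (c : ℤ) : Prop :=
  0 < a ∧ 0 < b ∧ c ≠ 0 ∧ Nat.Coprime a b ∧ IsCoprime (a : ℤ) c ∧ IsCoprime (b : ℤ) c ∧
    ¬ (Odd a ∧ Odd b ∧ Odd c)

/-- `(a, b, c)` satisfies the conditions of Q1 and `a p - b q = c` has infinitely many solutions in
primes `p, q`. -/
def TrueCase (a b : ℕ) (c : ℤ) : Prop :=
  Admissible a b c ∧ {pq : ℕ × ℕ | pq.1.Prime ∧ pq.2.Prime ∧ (a : ℤ) * pq.1 - b * pq.2 = c}.Infinite

theorem hT (a b : ℕ) (c : ℤ) : Pool.Agent.helper85.FC.TrueCase a b c ↔ TrueCase a b c := by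
  unfold Pool.Agent.helper85.FC.TrueCase TrueCase Admissible
  simp only [and_assoc]

theorem hAd (a b : ℕ) (c : ℤ) : Pool.Agent.IT.Ad a b c ↔ Admissible a b c := Iff.rfl

theorem hIt (a b m : ℕ) (c : ℤ) : Pool.Agent.IT.It a b c m ↔ TrueCase (a ^ m) (b ^ m) ((∑ i ∈ range m, (a : ℤ) ^ i * (b : ℤ) ^ (m - 1 - i)) * c) := by
  unfold Pool.Agent.IT.It Pool.Agent.IT.br
  rw [hT]
  push_cast
  rw [mul_comm]

theorem hIt1 (a b : ℕ) (c : ℤ) : Pool.Agent.IT.It a b c 1 ↔ TrueCase a b c := by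
  rw [hIt]
  simp

theorem hIt2 (a b : ℕ) (c : ℤ) : Pool.Agent.IT.It a b c 2 ↔ TrueCase (a ^ 2) (b ^ 2) ((a + b) * c) := by
  rw [hIt]
  have e : (∑ i ∈ range 2, (a : ℤ) ^ i * (b : ℤ) ^ (2 - 1 - i)) = a + b := by
    simp [sum_range_succ]
    ring
  rw [e]

theorem hIt3 (a b : ℕ) (c : ℤ) : Pool.Agent.IT.It a b c 3 ↔ TrueCase (a ^ 3) (b ^ 3) ((a ^ 2 + a * b + b ^ 2) * c) := by
  rw [hIt]
  have e : (∑ i ∈ range 3, (a : ℤ) ^ i * (b : ℤ) ^ (3 - 1 - i)) = a ^ 2 + a * b + b ^ 2 := by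
    simp [sum_range_succ]
    ring
  rw [e]

theorem hIt4 (a b : ℕ) (c : ℤ) :
    Pool.Agent.IT.It a b c 4 ↔ TrueCase (a ^ 4) (b ^ 4) ((a ^ 3 + a ^ 2 * b + a * b ^ 2 + b ^ 3) * c) := by
  rw [hIt]
  have e : (∑ i ∈ range 4, (a : ℤ) ^ i * (b : ℤ) ^ (4 - 1 - i)) = a ^ 3 + a ^ 2 * b + a * b ^ 2 + b ^ 3 := by
    simp [sum_range_succ]
    ring
  rw [e]

theorem K4R_all : Pool.Agent.IT.K4R_stmt := Pool.Agent.IT.K4R Pool.Agent.IT.K4C

theorem GCT_all : Pool.Agent.IT.GCT_stmt := Pool.Agent.IT.GCT K4R_all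

theorem ITG_all : Pool.Agent.IT.ITG_stmt := Pool.Agent.IT.ITG (Pool.Agent.IT.GEN GCT_all Pool.Agent.IT.ADF) Pool.Agent.IT.ORB Pool.Agent.IT.ADO Pool.Agent.IT.PRI

/-- the four exponents `0, 1, 2, 3` -/
theorem mono1 : StrictMono (![0, 1, 2, 3] : Fin 4 → ℕ) := by
  intro i j hij
  fin_cases i <;> fin_cases j <;> simp_all

/-- the four exponents `0, 1, 3, 4` -/
theorem mono2 : StrictMono (![0, 1, 3, 4] : Fin 4 → ℕ) := by
  intro i j hij
  fin_cases i <;> fin_cases j <;> simp_all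

/-- **One of the first four iterates.** -/
theorem result :
    (∀ a b : ℕ, 1 ≤ a → 1 ≤ b → Nat.Coprime a b → ∀ ε : ℝ, 0 < ε → ∃ M₀ : ℕ, ∀ M : ℕ, M₀ ≤ M → ∀ u : ℤ,
      ({c : ℤ | (u < c ∧ c ≤ u + M) ∧ Admissible a b c ∧
        ¬ (TrueCase a b c ∨ TrueCase (a ^ 2) (b ^ 2) ((a + b) * c) ∨
          TrueCase (a ^ 3) (b ^ 3) ((a ^ 2 + a * b + b ^ 2) * c) ∨
          (((3 : ℤ) ∣ (a : ℤ) - b ∧ ¬ (3 : ℤ) ∣ a * b * c) ∧
            TrueCase (a ^ 4) (b ^ 4) ((a ^ 3 + a ^ 2 * b + a * b ^ 2 + b ^ 3) * c)))}.ncard : ℝ) ≤ ε * M) ∧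
    ∀ (s : Fin 4 → ℕ) (α β : Fin 4 → ℤ), (∀ i, 0 < s i) → (∀ i j, i ≠ j → (s j : ℤ) * α i ≠ s i * α j) →
      ∀ ε : ℝ, 0 < ε → ∃ M₀ : ℕ, ∀ M : ℕ, M₀ ≤ M → ∀ u : ℤ,
        ({c : ℤ | (u < c ∧ c ≤ u + M) ∧
          (∀ p : ℕ, p.Prime → ∃ n : ℕ, ∀ i, ¬ (p : ℤ) ∣ s i * n + (α i * c + β i)) ∧
          ∀ i j, i ≠ j → ¬ {n : ℕ | (s i * n + (α i * c + β i)).toNat.Prime ∧ (s j * n + (α j * c + β j)).toNat.Prime}.Infinite}.ncard : ℝ) ≤ ε * M := by
  classical
  refine ⟨?_, ?_⟩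
  · intro a b ha hb hab ε hε
    obtain ⟨M₁, h1⟩ := ITG_all Pool.Agent.AT.QPc_all a b ![0, 1, 2, 3] ha hb hab mono1 (ε / 2) (by linarith)
    obtain ⟨M₂, h2⟩ := ITG_all Pool.Agent.AT.QPc_all a b ![0, 1, 3, 4] ha hb hab mono2 (ε / 2) (by linarith)
    refine ⟨max M₁ M₂, fun M hM u => ?_⟩
    have h1' := h1 M ((le_max_left _ _).trans hM) u
    have h2' := h2 M ((le_max_right _ _).trans hM) u
    set E₁ : Finset ℤ := {c ∈ Ioc u (u + M) | Pool.Agent.IT.Ad a b c ∧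
      ((3 : ℤ) ∣ a * b * c ∨ ¬ (3 : ℤ) ∣ (a : ℤ) - b ∨ ∃ r : ℤ, ∀ i, ¬ (3 : ℤ) ∣ ((![0, 1, 2, 3] : Fin 4 → ℕ) i : ℤ) - r) ∧
        ∀ i j : Fin 4, i < j → ¬ Pool.Agent.IT.It a b c ((![0, 1, 2, 3] : Fin 4 → ℕ) j - (![0, 1, 2, 3] : Fin 4 → ℕ) i)} with hE₁
    set E₂ : Finset ℤ := {c ∈ Ioc u (u + M) | Pool.Agent.IT.Ad a b c ∧
      ((3 : ℤ) ∣ a * b * c ∨ ¬ (3 : ℤ) ∣ (a : ℤ) - b ∨ ∃ r : ℤ, ∀ i, ¬ (3 : ℤ) ∣ ((![0, 1, 3, 4] : Fin 4 → ℕ) i : ℤ) - r) ∧
        ∀ i j : Fin 4, i < j → ¬ Pool.Agent.IT.It a b c ((![0, 1, 3, 4] : Fin 4 → ℕ) j - (![0, 1, 3, 4] : Fin 4 → ℕ) i)} with hE₂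
    have hsub : {c : ℤ | (u < c ∧ c ≤ u + M) ∧ Admissible a b c ∧
        ¬ (TrueCase a b c ∨ TrueCase (a ^ 2) (b ^ 2) ((a + b) * c) ∨
          TrueCase (a ^ 3) (b ^ 3) ((a ^ 2 + a * b + b ^ 2) * c) ∨
          (((3 : ℤ) ∣ (a : ℤ) - b ∧ ¬ (3 : ℤ) ∣ a * b * c) ∧
            TrueCase (a ^ 4) (b ^ 4) ((a ^ 3 + a ^ 2 * b + a * b ^ 2 + b ^ 3) * c)))} ⊆ ((E₁ ∪ E₂ : Finset ℤ) : Set ℤ) := by
      rintro c ⟨hcu, hca, hcn⟩
      rw [not_or, not_or, not_or, ← hIt1, ← hIt2, ← hIt3, ← hIt4] at hcn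
      obtain ⟨n1, n2, n3, n4⟩ := hcn
      rw [mem_coe, mem_union]
      by_cases h3 : (3 : ℤ) ∣ (a : ℤ) - b ∧ ¬ (3 : ℤ) ∣ a * b * c
      · right
        have n4' : ¬ Pool.Agent.IT.It a b c 4 := fun h => n4 ⟨h3, h⟩
        rw [hE₂, mem_filter, mem_Ioc]
        refine ⟨hcu, hca, Or.inr (Or.inr ⟨2, ?_⟩), ?_⟩
        · intro i
          fin_cases i <;> simp
        · intro i j hij
          fin_cases i <;> fin_cases j <;> first | exact absurd hij (by decide) | exact n1 | exact n2 | exact n3 | exact n4'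
      · left
        rw [hE₁, mem_filter, mem_Ioc]
        refine ⟨hcu, hca, ?_, ?_⟩
        · by_cases h4 : (3 : ℤ) ∣ (a : ℤ) - b
          · left
            by_contra h5
            exact h3 ⟨h4, h5⟩
          · exact Or.inr (Or.inl h4)
        · intro i j hij
          fin_cases i <;> fin_cases j <;> first | exact absurd hij (by decide) | exact n1 | exact n2 | exact n3
    have h3 := Set.ncard_le_ncard hsub (finite_toSet _)
    rw [Set.ncard_coe_finset] at h3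
    have h4 : (#(E₁ ∪ E₂) : ℝ) ≤ #E₁ + #E₂ := by exact_mod_cast card_union_le _ _
    have h5 : ((Set.ncard {c : ℤ | (u < c ∧ c ≤ u + M) ∧ Admissible a b c ∧
        ¬ (TrueCase a b c ∨ TrueCase (a ^ 2) (b ^ 2) ((a + b) * c) ∨
          TrueCase (a ^ 3) (b ^ 3) ((a ^ 2 + a * b + b ^ 2) * c) ∨
          (((3 : ℤ) ∣ (a : ℤ) - b ∧ ¬ (3 : ℤ) ∣ a * b * c) ∧
            TrueCase (a ^ 4) (b ^ 4) ((a ^ 3 + a ^ 2 * b + a * b ^ 2 + b ^ 3) * c)))} : ℕ) : ℝ) ≤ #(E₁ ∪ E₂) := by exact_mod_cast h3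
    linarith
  · intro s α β hs hα ε hε
    obtain ⟨M₀, h1⟩ := Pool.Agent.IT.GENS GCT_all Pool.Agent.IT.ADF (Pool.Agent.IT.QS (Pool.Agent.AT.Q_all 4 (by norm_num))) s α β hs hα ε hε
    refine ⟨M₀, fun M hM u => ?_⟩
    refine le_trans ?_ (h1 M hM u)
    rw [← Set.ncard_coe_finset]
    refine Nat.cast_le.2 (Set.ncard_le_ncard ?_ (finite_toSet _))
    rintro c ⟨hcu, hca, hcn⟩
    rw [mem_coe, mem_filter, mem_Ioc]
    refine ⟨hcu, hca, fun i j hij hs' => hcn i j hij ?_⟩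
    rw [Set.infinite_iff_exists_gt]
    intro N
    obtain ⟨n, hn, h2, h3⟩ := hs' (N + 1)
    exact ⟨n, ⟨h2, h3⟩, by omega⟩

end Pool.Agent.Results.MP_bf63dc_nt.FourIterates
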