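import Pool.Agent.helper19.FM.Asm2
import Pool.Agent.helper19.FM.Exp2
import Pool.Agent.helper22.FR.ORT
import Pool.Agent.helper19.FR.SPE

/-!
# One sequence of exponents makes every pair `(a, b) ≠ (1, 1)` good

`c` is called true for `(a, b)` if `(a, b, c)` satisfies the conditions of Q1 and `a p - b q = c` has infinitely many solutions in primes
`p, q`. The pair `(a, b)` is called `ε`-good (`Good`) if there are a progression `r + q ℤ` and a number `K` such that for arbitrarily large
`T` there are `T` consecutive terms of the progression, the first of them `r + q u` with `|u| ≤ K T`, of which at least `(1 - ε) T` are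
true. (So in this residue class almost all `c` of some intervals of positive relative length are true.) The quotient `s/t` of two
positive integers is called good if the pair `(a, b)` with `a/b = s/t` in lowest terms is `ε`-good.

THEOREM. Let `P` be the set of the pairs of coprime `a, b ≥ 1` except `(1, 1)`.
(1) There is a sequence `m_1 < m_2 < ...` of positive integers such that for ALL `(a, b)` in `P` and ALL `ε > 0` the pairs `(a^m, b^m)` with
`m = m_j` are `ε`-good from some `j` on.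
(2) In fact ANY infinite set of natural numbers has an infinite subset `T` such that for ALL `(a, b)` in `P` and ALL `ε > 0` there is an
`M` such that all differences `m = t - s` of elements `t > s > M` of `T` make `(a^m, b^m)` an `ε`-good pair.
(3) For ANY `n` pairs of `P` and all `ε, δ > 0` there is an `M_0` such that at least `(c_n - δ) M` of any `M ≥ M_0` consecutive exponents `m`
make all these `(a^m, b^m)` `ε`-good; here `c_n > 0` depends only on `n`, and `c_1 = 1/3`.
Let `0 < ε ≤ 1` and `N = 10^135 / ε^18`.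
(4) ANY `n` pairs of `P` have a common exponent `m ≤ K(n, ε)` for which all `(a^m, b^m)` are `ε`-good; for `n = 1` this is true with the
bound `m ≤ N`, and with `m ≤ 3` except for at most `N` pairs `(a, b)`.
(5) All this is a consequence of the following theorem: For every `k` there is a set of at most `10^124 (k/ε)^18` ratios such that among
ANY `k` different positive integers, all of whose ratios are outside this set, there are more than `k/4` which have pairwise good quotients.
(6) Hence there are at most six positive integers such that for all `a, b ≥ 1` one of them, `s`, makes `s a / b` a good quotient.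
(7) Hence every finite set `F` of positive integers has at least `|F|²/3 - N |F|` pairs `(s, t)` with a good quotient.

PROOF of (5) (`Pool/Agent/helper19/FR/Spec.lean`, `Pool/Agent/helper19/FM`). Let `F` be a finite set of positive integers. Take the linear
forms `w n + 1 + M x`, `0 ≤ x < X`, where `w` runs through a finite set which contains `w s` for almost all of its elements `w`, for all
`s ∈ F`, with `H` random values of `x` for every `w`. By the theorem on almost all tuples of linear forms (a sieve of Maynard and Tao for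
clusters of forms, proved in `Pool/Agent/helper38/AT`) with probability near to `1` more than a proportion `1/4 + 1/500000` of all these
forms is prime simultaneously for infinitely many `n`; let `J` be such a set of forms. Two forms of `J` with slopes `v s`, `v t` give a true
`c = a - b + M (a x - b x')` for the pair `(a, b)` with `a/b = t/s`; this does not depend on `v`. For every slope `w` let `K_w (x, y)` be the
correlation of the events `x ∈ J`, `y ∈ J`; its average over `w = v s` is almost the same kernel `K` for all `s ∈ F`. Let `B_r (x, x')`,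
`r = (a, b)`, be the indicator function of the false cases minus its average over progressions of difference `D = (m²)!` and of `l` terms,
`l` of order `X`. The functions `B_r`, `B_r'` for different ratios are almost orthogonal, as a shift by a multiple of `(b', a')` does not
change `a' x - b' x'`; so by Bessel's inequality for the products of the eigenfunctions of `K` with large eigenvalues only a bounded number
of ratios have a function `B_r` which is correlated with the sets `J` (Cauchy-Schwarz and the law of large numbers: the correlation of `B_r`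
with `J` is bounded by the form of `K`). For all other ratios which are not good the sets `J` have almost no pairs with slopes `v s`, `v t`.
Every slope has a part of `J` of density more than `1/4`: this gives functions `A_s` with values in `[0, 1]` and mean value more than `1/4` on
a finite probability space such that the mean value of `A_s A_t` is small if `s/t` is not good. Random rounding: the sum of the `A_s` minus
the sum of the `A_s A_t` over the pairs which are not good is at most the largest number of integers with pairwise good quotients. The set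
of ratios can be chosen independent of `F` (ultrafilter).

PROOF of (1) - (4) (`Pool/Agent/helper19/FM/Exp.lean`, `Exp2.lean`). For `h_1 < h_2 < h_3 < h_4` the quotients of the integers
`a^h b^(H - h)` are the powers `(a/b)^(h_i - h_j)`, so by (5) with `k = 4` one of the six differences `h_i - h_j` is a good exponent of
`(a, b)`, if none of them is one of the finitely many exceptional exponents (`(a, b)` is good if and only if `(b, a)` is good). (2) is
Ramsey's theorem for the colours good and not good, for all pairs and all `ε = 1/j` one after the other. (3): let `R` be the Ramsey number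
for `n` colours and four points; then there are no `R` integers with large differences none of which is a good exponent for all `n` pairs at
once (colour a pair of them by one of the `n` pairs for which the difference is not good); take such integers, as many as possible, at most
`R - 1`: every large integer is a good difference away from one of them. For `n = 1` is `R = 4`. (4): the exceptional exponents are avoided
by the multiples `d, 2 d, ..., R d` of a suitable `d`.
-/

set_option autoImplicit false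

namespace Pool.Agent.Results.MP_bf63dc_nt.FourRatios

open Finset

/-- The conditions of Q1 on `a, b, c`. -/
def Admissible (a b : ℕ) (c : ℤ) : Prop :=
  0 < a ∧ 0 < b ∧ c ≠ 0 ∧ Nat.Coprime a b ∧ IsCoprime (a : ℤ) c ∧ IsCoprime (b : ℤ) c ∧
    ¬ (Odd a ∧ Odd b ∧ Odd c)

/-- `(a, b, c)` satisfies the conditions of Q1 and `a p - b q = c` has infinitely many solutions in
primes `p, q`. -/
def TrueCase (a b : ℕ) (c : ℤ) : Prop :=
  Admissible a b c ∧ {pq : ℕ × ℕ | pq.1.Prime ∧ pq.2.Prime ∧ (a : ℤ) * pq.1 - b * pq.2 = c}.Infinite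

/-- There are `q, r, K` such that for arbitrarily large `T` at least `(1 - ε) T` of some `T` consecutive terms of the progression
`r + q ℤ` are true for `(a, b)`, where the first of them is `r + q u` with `|u| ≤ K T`. -/
def Good (ε : ℝ) (a b : ℕ) : Prop :=
  ∃ q r K : ℕ, 1 ≤ q ∧ ∀ T₀ : ℕ, ∃ T : ℕ, T₀ ≤ T ∧ ∃ u : ℤ, |u| ≤ K * T ∧
    (1 - ε) * T ≤ ({t : ℕ | t < T ∧ TrueCase a b (r + q * (u + t))}.ncard : ℝ)

/-- the quotient `s/t` in lowest terms -/
def low (s t : ℕ) : ℕ × ℕ := (s / Nat.gcd s t, t / Nat.gcd s t)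

/-- the pair `(a, b)` with `a/b = s/t` in lowest terms is good -/
def GoodQ (ε : ℝ) (s t : ℕ) : Prop := Good ε (low s t).1 (low s t).2

theorem hT : Pool.Agent.helper85.FC.TrueCase = TrueCase := by
  funext a b c
  unfold Pool.Agent.helper85.FC.TrueCase TrueCase Admissible
  simp only [and_assoc]

theorem hcard {α : Type} (s : Finset α) (P Q : α → Prop) (inst : DecidablePred Q) (h : ∀ x, P x ↔ Q x) :
    (({x | x ∈ s ∧ P x}.ncard : ℕ) : ℝ) = ((#(@Finset.filter α Q inst s) : ℕ) : ℝ) := by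
  have h1 : {x | x ∈ s ∧ P x} = ((@Finset.filter α Q inst s : Finset α) : Set α) := by
    ext x
    simp [h]
  rw [h1, Set.ncard_coe_finset]

theorem hG0 (a b q r T : ℕ) (u : ℤ) : ((Pool.Agent.OM.NR a b q T (r + q * u) : ℕ) : ℝ) =
    ({t : ℕ | t < T ∧ TrueCase a b (r + q * (u + t))}.ncard : ℝ) := by
  unfold Pool.Agent.OM.NR
  rw [hT, ← hcard _ (fun t : ℕ => TrueCase a b (r + q * u + q * ((t : ℕ) : ℤ))) _ _ fun _ => Iff.rfl]
  have e : {t : ℕ | t < T ∧ TrueCase a b (r + q * (u + t))} =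
      {x : ℕ | x ∈ range T ∧ TrueCase a b (r + q * u + q * ((x : ℕ) : ℤ))} := by
    ext t
    simp only [Set.mem_ofPred_eq, mem_range]
    rw [show (r : ℤ) + q * (u + t) = r + q * u + q * (t : ℤ) by ring]
  rw [e]

theorem hG (ε : ℝ) (a b : ℕ) : Pool.Agent.FM.GoodM ε a b ↔ Good ε a b := by
  unfold Pool.Agent.FM.GoodM Good
  simp only [hG0]

theorem hQ (ε : ℝ) (s t : ℕ) : Pool.Agent.FM.GQM ε s t ↔ GoodQ ε s t := hG ε _ _

/-- monotonicity of counts -/
theorem hle {α : Type} (s : Finset α) (P Q : α → Prop) (inst : DecidablePred Q) (h : ∀ x ∈ s, Q x → P x) :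
    ((#(@Finset.filter α Q inst s) : ℕ) : ℝ) ≤ (({x | x ∈ s ∧ P x}.ncard : ℕ) : ℝ) := by
  rw [← Set.ncard_coe_finset]
  refine Nat.cast_le.2 (Set.ncard_le_ncard ?_ (s.finite_toSet.subset fun x hx => hx.1))
  intro x hx
  rw [mem_coe, mem_filter] at hx
  exact ⟨hx.1, h x hx.1 hx.2⟩

/-- **One sequence of exponents makes every pair good.** -/
theorem result :
    -- one sequence of exponents for all pairs and all `ε`
    (∃ m : ℕ → ℕ, StrictMono m ∧ 1 ≤ m 0 ∧
      ∀ a b : ℕ, 1 ≤ a → 1 ≤ b → Nat.Coprime a b → ¬ (a = 1 ∧ b = 1) → ∀ ε : ℝ, 0 < ε →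
        ∃ j₀ : ℕ, ∀ j, j₀ ≤ j → Good ε (a ^ m j) (b ^ m j)) ∧
    -- any infinite set has an infinite subset all of whose differences are such exponents
    (∀ S : Set ℕ, S.Infinite → ∃ T : Set ℕ, T ⊆ S ∧ T.Infinite ∧
      ∀ a b : ℕ, 1 ≤ a → 1 ≤ b → Nat.Coprime a b → ¬ (a = 1 ∧ b = 1) → ∀ ε : ℝ, 0 < ε →
        ∃ M : ℕ, ∀ s ∈ T, ∀ t ∈ T, M < s → s < t → Good ε (a ^ (t - s)) (b ^ (t - s))) ∧
    -- a positive proportion of all exponents for any `n` pairs at once
    (∀ n : ℕ, ∃ c : ℝ, 0 < c ∧ (n = 1 → c = 1 / 3) ∧ ∀ ε δ : ℝ, 0 < ε → 0 < δ → ∀ a b : Fin n → ℕ,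
      (∀ i, 1 ≤ a i ∧ 1 ≤ b i ∧ Nat.Coprime (a i) (b i) ∧ ¬ (a i = 1 ∧ b i = 1)) →
      ∃ M₀ : ℕ, ∀ M : ℕ, M₀ ≤ M → ∀ u : ℕ,
        (c - δ) * M ≤ ({m : ℕ | m ∈ Ioc u (u + M) ∧ ∀ i, Good ε (a i ^ m) (b i ^ m)}.ncard : ℝ)) ∧
    ∀ ε : ℝ, 0 < ε → ε ≤ 1 →
      -- a common bounded exponent for any `n` pairs
      (∀ n : ℕ, ∃ K : ℕ, ∀ a b : Fin n → ℕ,
        (∀ i, 1 ≤ a i ∧ 1 ≤ b i ∧ Nat.Coprime (a i) (b i) ∧ ¬ (a i = 1 ∧ b i = 1)) →
        ∃ m : ℕ, 1 ≤ m ∧ m ≤ K ∧ ∀ i, Good ε (a i ^ m) (b i ^ m)) ∧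
      -- an explicit bound for one pair
      (∀ a b : ℕ, 1 ≤ a → 1 ≤ b → Nat.Coprime a b → ¬ (a = 1 ∧ b = 1) →
        ∃ m : ℕ, 1 ≤ m ∧ (m : ℝ) ≤ 10 ^ 135 / ε ^ 18 ∧ Good ε (a ^ m) (b ^ m)) ∧
      -- one of the first three powers, with at most `N` exceptions
      (∃ E : Finset (ℕ × ℕ), (#E : ℝ) ≤ 10 ^ 135 / ε ^ 18 ∧ ∀ a b : ℕ, 1 ≤ a → 1 ≤ b → Nat.Coprime a b → (a, b) ∉ E →
        Good ε a b ∨ Good ε (a ^ 2) (b ^ 2) ∨ Good ε (a ^ 3) (b ^ 3)) ∧
      -- more than a quarter of any `k` integers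
      (∀ k : ℕ, 1 ≤ k → ∃ E : Finset (ℕ × ℕ), (#E : ℝ) ≤ 10 ^ 124 * ((k : ℝ) / ε) ^ 18 ∧
        ∀ s : Fin k → ℕ, (∀ i, 0 < s i) → Function.Injective s → (∀ i j, i ≠ j → low (s i) (s j) ∉ E) →
          ∃ I : Finset (Fin k), k < 4 * #I ∧ ∀ i ∈ I, ∀ j ∈ I, i ≠ j → GoodQ ε (s i) (s j)) ∧
      -- six integers for all pairs
      (∃ S : Finset ℕ, #S ≤ 6 ∧ (∀ s ∈ S, 0 < s) ∧ ∀ a b : ℕ, 1 ≤ a → 1 ≤ b → ∃ s ∈ S, GoodQ ε (s * a) b) ∧
      -- a third of all pairs
      ∀ F : Finset ℕ, (∀ s ∈ F, 0 < s) → 1 / 3 * (#F : ℝ) ^ 2 - 10 ^ 135 / ε ^ 18 * #F ≤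
        ({p | p ∈ F ×ˢ F ∧ GoodQ ε p.1 p.2}.ncard : ℝ) := by
  have hN : ∀ ε : ℝ, 0 < ε → 10 ^ 124 * (((4 : ℕ) : ℝ) / ε) ^ 18 ≤ 10 ^ 135 / ε ^ 18 := by
    intro ε hε
    rw [div_pow, ← mul_div_assoc]
    refine div_le_div_of_nonneg_right ?_ (by positivity)
    norm_num
  have hFourAll : ∀ ε : ℝ, 0 < ε → ∃ E : Finset (ℕ × ℕ), Pool.Agent.FM.FourM ε E Set.univ := by
    have h1 : ∀ ε : ℝ, 0 < ε → ε ≤ 1 → ∃ E : Finset (ℕ × ℕ), Pool.Agent.FM.FourM ε E Set.univ := by
      intro ε hε hε1
      obtain ⟨C, hC, -⟩ := Pool.Agent.FM.Asm2_C ε 4 (by norm_num) hε hε1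
      obtain ⟨E, -, h2⟩ := Pool.Agent.FM.GLK ε 4 C
        (Pool.Agent.FM.mainK Pool.Agent.FR.SPE Pool.Agent.FR.ORT ε 4 C (by norm_num) hε hε1 hC)
      exact ⟨E, Pool.Agent.FM.CliK_four ε E Set.univ h2⟩
    intro ε hε
    by_cases hε1 : ε ≤ 1
    · exact h1 ε hε hε1
    · obtain ⟨E, hE⟩ := h1 1 one_pos le_rfl
      push Not at hε1
      refine ⟨E, fun s hs hinj hrat => ?_⟩
      obtain ⟨i, j, hij, h2⟩ := hE s hs hinj hrat
      exact ⟨i, j, hij, Pool.Agent.FM.GQMS.2.2 1 ε _ _ hε1.le h2⟩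
  refine ⟨?_, ?_, ?_, ?_⟩
  · obtain ⟨m, hm, hm0, h⟩ := Pool.Agent.FM.Exp_seq hFourAll
    refine ⟨m, hm, hm0, fun a b ha hb hab hne ε hε => ?_⟩
    obtain ⟨j₀, hj⟩ := h a b ⟨ha, hb, hab, hne⟩ ε hε
    exact ⟨j₀, fun j hj' => (hG _ _ _).1 (hj j hj')⟩
  · intro S hS
    obtain ⟨T, hTS, hT, h⟩ := Pool.Agent.FM.Exp_dif hFourAll S hS
    refine ⟨T, hTS, hT, fun a b ha hb hab hne ε hε => ?_⟩
    obtain ⟨M, hM⟩ := h a b ⟨ha, hb, hab, hne⟩ ε hε
    exact ⟨M, fun s hs t ht h1 h2 => (hG _ _ _).1 (hM s hs t ht h1 h2)⟩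
  · intro n
    obtain ⟨c, hc0, hc1, h⟩ := Pool.Agent.FM.Exp_common n
    refine ⟨c, hc0, hc1, fun ε δ hε hδ a b hP => ?_⟩
    obtain ⟨E, hE⟩ := hFourAll ε hε
    obtain ⟨M₀, hM⟩ := h ε E hE δ hδ a b hP
    exact ⟨M₀, fun M hM' u => (hM M hM' u).trans (hle _ _ _ _ fun m _ hm i => (hG _ _ _).1 (hm i))⟩
  · intro ε hε hε1
    obtain ⟨C, hC, hC2⟩ := Pool.Agent.FM.Asm2_C ε 4 (by norm_num) hε hε1
    have hC3 := hC2.trans (hN ε hε)
    have hmain : ∀ F : Finset ℕ, (∀ s ∈ F, 0 < s) → ∃ E : Finset (ℕ × ℕ), #E ≤ C ∧ Pool.Agent.FM.FourM ε E (F : Set ℕ) := by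
      intro F hF
      obtain ⟨E, hE, h⟩ := Pool.Agent.FM.mainK Pool.Agent.FR.SPE Pool.Agent.FR.ORT ε 4 C (by norm_num) hε hε1 hC F hF
      exact ⟨E, hE, Pool.Agent.FM.CliK_four ε E _ h⟩
    obtain ⟨E, hE, hFour⟩ := Pool.Agent.FM.GLBM ε C hmain
    have hEr : (#E : ℝ) ≤ C := by exact_mod_cast hE
    have hE0 : (0 : ℝ) ≤ #E := Nat.cast_nonneg _
    have hTHR := Pool.Agent.FM.THR hFourAll Pool.Agent.EP.MXC Pool.Agent.FM.GQMS
    refine ⟨?_, ?_, ?_, ?_, ?_, ?_⟩
    · intro n
      obtain ⟨K, hK⟩ := Pool.Agent.FM.Exp_any ε E hFour n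
      refine ⟨K, fun a b hp => ?_⟩
      obtain ⟨m, hm1, hm2, h⟩ := hK (fun i => (a i, b i)) fun i => hp i
      exact ⟨m, hm1, hm2, fun i => (hG _ _ _).1 (h i)⟩
    · intro a b ha hb hab hne
      obtain ⟨m, hm1, hm2, hm⟩ := Pool.Agent.FM.POWQ Pool.Agent.FM.GSM ε C hmain a b ha hb hab hne
      refine ⟨m, hm1, ?_, (hG _ _ _).1 hm⟩
      have h1 : (m : ℝ) ≤ 3 * (6 * C + 1) := by exact_mod_cast hm2
      linarith
    · obtain ⟨E', hE', h⟩ := Pool.Agent.FM.TRIQ Pool.Agent.FM.GSM ε E hFour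
      refine ⟨E', ?_, fun a b ha hb hab hn => ?_⟩
      · have h1 : (#E' : ℝ) ≤ 6 * #E + 1 := by exact_mod_cast hE'
        linarith
      · have h1 := h a b ha hb hab hn
        simp only [hG] at h1
        exact h1
    · intro k hk
      obtain ⟨C', hC', hC2'⟩ := Pool.Agent.FM.Asm2_C ε k hk hε hε1
      obtain ⟨E', hE', h⟩ := Pool.Agent.FM.GLK ε k C' (Pool.Agent.FM.mainK Pool.Agent.FR.SPE Pool.Agent.FR.ORT ε k C' hk hε hε1 hC')
      have hEr' : (#E' : ℝ) ≤ C' := by exact_mod_cast hE'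
      have hC0 : (0 : ℝ) ≤ C' := Nat.cast_nonneg _
      refine ⟨E', by linarith, fun s hs hinj hrat => ?_⟩
      obtain ⟨I, hI, h1⟩ := h s (fun i => ⟨hs i, Set.mem_univ _⟩) hinj hrat
      exact ⟨I, hI, fun i hi j hj hij => (hQ _ _ _).1 (h1 i hi j hj hij)⟩
    · obtain ⟨S, hS6, hS0, h⟩ := Pool.Agent.FM.SIX hTHR ε hε
      refine ⟨S, hS6, hS0, fun a b ha hb => ?_⟩
      obtain ⟨u, hu, h1⟩ := h a b ha hb
      exact ⟨u, hu, (hQ _ _ _).1 h1⟩
    · intro F hF
      have h1 := Pool.Agent.FM.CNTQ Pool.Agent.FM.GQMS ε E hFour F hF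
      have h2 : (2 * (#E : ℝ) + 1) * #F ≤ 10 ^ 135 / ε ^ 18 * #F :=
        mul_le_mul_of_nonneg_right (by linarith) (Nat.cast_nonneg _)
      refine le_trans (by linarith) (h1.trans (hle _ _ _ _ fun p _ hp => (hQ _ _ _).1 hp))

end Pool.Agent.Results.MP_bf63dc_nt.FourRatios
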