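import Pool.Agent.helper19.HF.FinY
import Pool.Agent.helper78.HF.FINY
import Pool.Agent.helper38.AT.All

/-!
# Either the differences of primes have only a power saving number of exceptions, or more than half of all cases is true for EVERY pair of coefficients

`c` is true for `(a, b)` if `(a, b, c)` satisfies the conditions of Q1 (`Admissible a b c`) and `a p - b q = c` has infinitely many solutions in primes `p, q` (`TrueCase a b c`).

THEOREM. At least one of (A), (B) is true.
(A) There is `m ≥ 1` with `PowerSaving m`: for some `K`, every interval of `N` integers contains at most `N^(1 - 1/K)` multiples `c ≠ 0` of `2 m` which are not infinitely often a difference `p - q` of two primes.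
(B) For EVERY coprime `a, b ≥ 1`, in EVERY arithmetic progression, more than half, at least the proportion `1/2 + 3/10^6`, of those `c` among any `M ≥ M₀` consecutive terms which satisfy the conditions of Q1 are true for `(a, b)`.

PROOF of (B) if (A) fails. The input is the theorem on almost all `k`-tuples of linear forms (a sieve of Maynard and Tao for clusters of forms, `Pool/Agent/helper38/AT`): more than `α k`, `α = 1/4 + 1/500000`, of the forms of almost every tuple in a product of large sets of forms are prime simultaneously for infinitely many `n`.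
By the theorem of Kovari, Sos and Turan for all `s, K` there are multiples `x_i, y_j` of `s` (`i, j < K`) such that no `x_i - y_j` is a true difference. Suppose that (B) fails for `(a, b)`: some class modulo `D` has long windows of density `≤ 2 α - δ` of the true `c` for `(a, b)`. Let `γ ≤ 2 α - δ` be the
infimum of the lower Banach densities of the true `c` along the progressions of steps divisible by `D` in this class, nearly attained for the step `s`. Every sample point `(u, i, j)` of slope `b` gives two forms `b n + (Λ + s u + x_i)`, `b n + (Λ + s u + y_j)`, of which at most one is in the clique; the same for the slope `a`.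
Pinning (increment of energy; Bessel's inequality) gives functions `a_0, a_1` (slope `b`), `a_2, a_3` (slope `a`) with `a_0 + a_1 ≤ 1`, `a_2 + a_3 ≤ 1`, sum of the means `≥ 4 α - ε > 1`, such that almost all pairs of points of `a_i × a_j` (`i ≤ 1`, `j ≥ 2`) give a true `c`. So both sides are not small. For the larger function of each side the
popular values of `a u - b v` have an almost period `p q` with a large prime `p` and bounded `q` (the method of Croot and Sisask), and by POLLARD's theorem modulo `p` their density is at least `mean(a_i) + mean(a_j)`; as all progressions near this place have density about `γ`, `mean(a_i) + mean(a_j) ≤ γ + e`. So the sum of the four means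
is at most `2 (2 α - δ + e) < 4 α - ε`: contradiction.
-/

set_option autoImplicit false

namespace Pool.Agent.Results.MP_bf63dc_nt.HalfOrPowerSaving

open Finset

/-- The conditions of Q1: `a, b ≥ 1`, `c ≠ 0`, pairwise relatively prime, not all odd. -/
def Admissible (a b : ℕ) (c : ℤ) : Prop :=
  0 < a ∧ 0 < b ∧ c ≠ 0 ∧ Nat.Coprime a b ∧ IsCoprime (a : ℤ) c ∧ IsCoprime (b : ℤ) c ∧
    ¬ (Odd a ∧ Odd b ∧ Odd c)

/-- `c` is true for `(a, b)`: the conditions of Q1 hold and `a p - b q = c` has infinitely many solutions in primes. -/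
def TrueCase (a b : ℕ) (c : ℤ) : Prop :=
  Admissible a b c ∧ {pq : ℕ × ℕ | pq.1.Prime ∧ pq.2.Prime ∧ (a : ℤ) * pq.1 - b * pq.2 = c}.Infinite

/-- There is `K` such that every interval of `N` integers contains at most `N ^ (1 - 1 / K)` multiples `c ≠ 0` of `2 m` which are not infinitely often a difference of two primes. -/
def PowerSaving (m : ℕ) : Prop :=
  ∃ K : ℕ, 1 ≤ K ∧ ∀ (u : ℤ) (N : ℕ), ({c : ℤ | u < c ∧ c ≤ u + N ∧ c ≠ 0 ∧ ((2 * m : ℕ) : ℤ) ∣ c ∧ ¬ TrueCase 1 1 c}.ncard : ℝ) ≤ (N : ℝ) ^ (1 - 1 / (K : ℝ))

theorem hT : Pool.Agent.helper85.FC.TrueCase = TrueCase := by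
  funext a b c
  unfold Pool.Agent.helper85.FC.TrueCase TrueCase Admissible
  simp only [and_assoc]

theorem power (m K : ℕ) (hK : 1 ≤ K) (h2 : Pool.Agent.AL.SparseM m K 1) : PowerSaving m := by
  refine ⟨K, hK, fun u N => ?_⟩
  have h3 := h2 u N
  unfold Pool.Agent.AL.BadM at h3
  rw [hT] at h3
  rw [Pool.Agent.AL.FIN_ncard (fun c => c ≠ 0 ∧ ((2 * m : ℕ) : ℤ) ∣ c ∧ ¬ TrueCase 1 1 c) u N]
  rw [one_mul] at h3
  refine le_trans (le_of_eq ?_) h3
  exact_mod_cast Pool.Agent.AL.FIN_card _ _ _ _ (fun c => Iff.rfl) _

/-- **Half for every pair, or a power saving.** -/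
theorem result :
    (∃ m : ℕ, 1 ≤ m ∧ PowerSaving m) ∨
    ∀ a b : ℕ, 1 ≤ a → 1 ≤ b → Nat.Coprime a b → ∀ s : ℕ, 1 ≤ s → ∃ M₀ : ℕ, ∀ M : ℕ, M₀ ≤ M → ∀ y : ℤ,
      (1 / 2 + 3 / 10 ^ 6) * ({t : ℕ | t < M ∧ Admissible a b (y + s * t)}.ncard : ℝ) ≤
        ({t : ℕ | t < M ∧ TrueCase a b (y + s * t)}.ncard : ℝ) := by
  classical
  rcases Pool.Agent.HF.half_or_saving Pool.Agent.HF.FINY with ⟨m, K, hm, hK, -, h2⟩ | h
  · exact Or.inl ⟨m, hm, power m K hK h2⟩
  · right
    intro a b ha hb hab s hs
    obtain ⟨M₀, h⟩ := h a b ha hb hab s hs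
    refine ⟨M₀, fun M hM y => ?_⟩
    have h1 := h M hM y
    have e1 : {t : ℕ | t < M ∧ Admissible a b (y + s * t)} = ((range M).filter (fun t : ℕ => Pool.Agent.IT.Ad a b (y + s * (t : ℕ))) : Finset ℕ) := by
      ext t
      simp only [Set.mem_ofPred_eq, coe_filter, mem_range]
      exact Iff.rfl
    have e2 : {t : ℕ | t < M ∧ TrueCase a b (y + s * t)} = ((range M).filter (fun t : ℕ => Pool.Agent.HF.TC a b (y + s * (t : ℕ))) : Finset ℕ) := by
      ext t
      simp only [Set.mem_ofPred_eq, coe_filter, mem_range]
      unfold Pool.Agent.HF.TC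
      rw [hT]
    rw [e1, e2, Set.ncard_coe_finset, Set.ncard_coe_finset]
    exact h1

end Pool.Agent.Results.MP_bf63dc_nt.HalfOrPowerSaving
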