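import Pool.Agent.helper19.HF.FinY
import Pool.Agent.helper78.HF.FINY
import Pool.Agent.helper76.DI.Fin
import Pool.Agent.helper38.AT.All

/-!
# Either the differences of primes have only a power saving number of exceptions, or more than half of all cases is true for EVERY pair of coefficients

`c` is true for `(a, b)` if `(a, b, c)` satisfies the conditions of Q1 (`Admissible a b c`) and `a p - b q = c` has infinitely many solutions in primes `p, q` (`TrueCase a b c`).

THEOREM. At least one of (A), (B) is true.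
(A) There is `m ≥ 1` with `PowerSaving m`: for some `K`, every interval of `N` integers contains at most `N^(1 - 1/K)` multiples `c ≠ 0` of `2 m` which are not infinitely often a difference `p - q` of two primes.
(B) (B1) For EVERY coprime `a, b ≥ 1`, in EVERY arithmetic progression, more than half, at least the proportion `1/2 + 3/10^6`, of those `c` among any `M ≥ M₀` consecutive terms which satisfy the conditions of Q1 are true for `(a, b)`.
(B2) For every `ε > 0` all coprime pairs with at most `10^131 / ε^18` exceptions are `ε`-good: some progression has arbitrarily long windows with at least the proportion `1 - ε` of true `c`, the first of `T` consecutive terms being `r + q u` with `|u| ≤ K T`.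
(B3) For every `m` there is ONE constant `C` such that every interval of length `C (a + b)` contains a true `c ≡ c'` modulo `m`, for every case `(a, b, c')`.

PROOF of (B1) if (A) fails. The input is the theorem on almost all `k`-tuples of linear forms (a sieve of Maynard and Tao for clusters of forms, `Pool/Agent/helper38/AT`): more than `α k`, `α = 1/4 + 1/500000`, of the forms of almost every tuple in a product of large sets of forms are prime simultaneously for infinitely many `n`.
By the theorem of Kovari, Sos and Turan for all `s, K` there are multiples `x_i, y_j` of `s` (`i, j < K`) such that no `x_i - y_j` is a true difference. Suppose that (B1) fails for `(a, b)`: some class modulo `D` has long windows of density `≤ 2 α - δ` of the true `c` for `(a, b)`. Let `γ ≤ 2 α - δ` be the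
infimum of the lower Banach densities of the true `c` along the progressions of steps divisible by `D` in this class, nearly attained for the step `s`. Every sample point `(u, i, j)` of slope `b` gives two forms `b n + (Λ + s u + x_i)`, `b n + (Λ + s u + y_j)`, of which at most one is in the clique; the same for the slope `a`.
Pinning (increment of energy; Bessel's inequality) gives functions `a_0, a_1` (slope `b`), `a_2, a_3` (slope `a`) with `a_0 + a_1 ≤ 1`, `a_2 + a_3 ≤ 1`, sum of the means `≥ 4 α - ε > 1`, such that almost all pairs of points of `a_i × a_j` (`i ≤ 1`, `j ≥ 2`) give a true `c`. So both sides are not small. For the larger function of each side the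
popular values of `a u - b v` have an almost period `p q` with a large prime `p` and bounded `q` (the method of Croot and Sisask), and by POLLARD's theorem modulo `p` their density is at least `mean(a_i) + mean(a_j)`; as all progressions near this place have density about `γ`, `mean(a_i) + mean(a_j) ≤ γ + e`. So the sum of the four means
is at most `2 (2 α - δ + e) < 4 α - ε`: contradiction. PROOF of (B2), (B3): `Pool/Agent/helper76/DI`, `Pool/Agent/helper7/AL`.
-/

set_option autoImplicit false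

namespace Pool.Agent.Results.MP_bf63dc_nt.HalfOrPowerSaving

open Finset

/-- The conditions of Q1: `a, b ≥ 1`, `c ≠ 0`, pairwise relatively prime, not all odd. -/
def Admissible (a b : ℕ) (c : ℤ) : Prop :=
  0 < a ∧ 0 < b ∧ c ≠ 0 ∧ Nat.Coprime a b ∧ IsCoprime (a : ℤ) c ∧ IsCoprime (b : ℤ) c ∧
    ¬ (Odd a ∧ Odd b ∧ Odd c)

/-- `c` is true for `(a, b)`: the conditions of Q1 hold and `a p - b q = c` has infinitely many solutions in primes. -/
def TrueCase (a b : ℕ) (c : ℤ) : Prop :=
  Admissible a b c ∧ {pq : ℕ × ℕ | pq.1.Prime ∧ pq.2.Prime ∧ (a : ℤ) * pq.1 - b * pq.2 = c}.Infinite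

/-- There is `K` such that every interval of `N` integers contains at most `N ^ (1 - 1 / K)` multiples `c ≠ 0` of `2 m` which are not infinitely often a difference of two primes. -/
def PowerSaving (m : ℕ) : Prop :=
  ∃ K : ℕ, 1 ≤ K ∧ ∀ (u : ℤ) (N : ℕ), ({c : ℤ | u < c ∧ c ≤ u + N ∧ c ≠ 0 ∧ ((2 * m : ℕ) : ℤ) ∣ c ∧ ¬ TrueCase 1 1 c}.ncard : ℝ) ≤ (N : ℝ) ^ (1 - 1 / (K : ℝ))

/-- There are `q, r, K` such that for arbitrarily large `T` at least `(1 - ε) T` of some `T` consecutive terms of the progression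
`r + q ℤ` are true for `(a, b)`, where the first of them is `r + q u` with `|u| ≤ K T`. -/
def Good (ε : ℝ) (a b : ℕ) : Prop :=
  ∃ q r K : ℕ, 1 ≤ q ∧ ∀ T₀ : ℕ, ∃ T : ℕ, T₀ ≤ T ∧ ∃ u : ℤ, |u| ≤ K * T ∧
    (1 - ε) * T ≤ ({t : ℕ | t < T ∧ TrueCase a b (r + q * (u + t))}.ncard : ℝ)

theorem hT : Pool.Agent.helper85.FC.TrueCase = TrueCase := by
  funext a b c
  unfold Pool.Agent.helper85.FC.TrueCase TrueCase Admissible
  simp only [and_assoc]

theorem hP : Pool.Agent.AL.Poss = Admissible := rfl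

theorem hcard {α : Type} (s : Finset α) (P Q : α → Prop) (inst : DecidablePred Q) (h : ∀ x, P x ↔ Q x) :
    (({x | x ∈ s ∧ P x}.ncard : ℕ) : ℝ) = ((#(@Finset.filter α Q inst s) : ℕ) : ℝ) := by
  have h1 : {x | x ∈ s ∧ P x} = ((@Finset.filter α Q inst s : Finset α) : Set α) := by
    ext x
    simp [h]
  rw [h1, Set.ncard_coe_finset]

theorem hG0 (a b q r T : ℕ) (u : ℤ) : ((Pool.Agent.OM.NR a b q T (r + q * u) : ℕ) : ℝ) =
    ({t : ℕ | t < T ∧ TrueCase a b (r + q * (u + t))}.ncard : ℝ) := by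
  unfold Pool.Agent.OM.NR
  rw [hT, ← hcard _ (fun t : ℕ => TrueCase a b (r + q * u + q * ((t : ℕ) : ℤ))) _ _ fun _ => Iff.rfl]
  have e : {t : ℕ | t < T ∧ TrueCase a b (r + q * (u + t))} =
      {x : ℕ | x ∈ range T ∧ TrueCase a b (r + q * u + q * ((x : ℕ) : ℤ))} := by
    ext t
    simp only [Set.mem_ofPred_eq, mem_range]
    rw [show (r : ℤ) + q * (u + t) = r + q * u + q * (t : ℤ) by ring]
  rw [e]

theorem hG (ε : ℝ) (a b : ℕ) : Pool.Agent.FM.GoodM ε a b ↔ Good ε a b := by
  unfold Pool.Agent.FM.GoodM Good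
  simp only [hG0]

theorem power (m K : ℕ) (hK : 1 ≤ K) (h2 : Pool.Agent.AL.SparseM m K 1) : PowerSaving m := by
  refine ⟨K, hK, fun u N => ?_⟩
  have h3 := h2 u N
  unfold Pool.Agent.AL.BadM at h3
  rw [hT] at h3
  rw [Pool.Agent.AL.FIN_ncard (fun c => c ≠ 0 ∧ ((2 * m : ℕ) : ℤ) ∣ c ∧ ¬ TrueCase 1 1 c) u N]
  rw [one_mul] at h3
  refine le_trans (le_of_eq ?_) h3
  exact_mod_cast Pool.Agent.AL.FIN_card _ _ _ _ (fun c => Iff.rfl) _

/-- **Half for every pair, or a power saving.** -/
theorem result :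
    -- (A)
    (∃ m : ℕ, 1 ≤ m ∧ PowerSaving m) ∨
    -- (B1)
    ((∀ a b : ℕ, 1 ≤ a → 1 ≤ b → Nat.Coprime a b → ∀ s : ℕ, 1 ≤ s → ∃ M₀ : ℕ, ∀ M : ℕ, M₀ ≤ M → ∀ y : ℤ,
        (1 / 2 + 3 / 10 ^ 6) * ({t : ℕ | t < M ∧ Admissible a b (y + s * t)}.ncard : ℝ) ≤
          ({t : ℕ | t < M ∧ TrueCase a b (y + s * t)}.ncard : ℝ)) ∧
      -- (B2)
      (∀ ε : ℝ, 0 < ε → ∃ E : Finset (ℕ × ℕ), (#E : ℝ) ≤ 10 ^ 131 / ε ^ 18 ∧
        ∀ a b : ℕ, 1 ≤ a → 1 ≤ b → Nat.Coprime a b → (a, b) ∉ E → Good ε a b) ∧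
      -- (B3)
      ∀ m : ℕ, 1 ≤ m → ∃ C : ℕ, ∀ (a b : ℕ) (c' : ℤ), Admissible a b c' → ∀ u : ℤ,
        ∃ c : ℤ, u < c ∧ c ≤ u + C * (a + b) ∧ (m : ℤ) ∣ c - c' ∧ TrueCase a b c) := by
  classical
  by_cases hA : ∃ m : ℕ, 1 ≤ m ∧ PowerSaving m
  · exact Or.inl hA
  right
  have hDI : ∀ m : ℕ, 1 ≤ m → Pool.Agent.AL.GapsM m ∧ Pool.Agent.AL.QuarterM m ∧ ∀ ε : ℝ, 0 < ε → ∃ E : Finset (ℕ × ℕ), (#E : ℝ) ≤ 10 ^ 131 / ε ^ 18 ∧
      ∀ a b : ℕ, 1 ≤ a → 1 ≤ b → Nat.Coprime a b → (a, b) ∉ E → Pool.Agent.FM.GoodM ε a b := by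
    intro m hm
    rcases Pool.Agent.DI.dichotomy m hm with ⟨K, hK, -, h2⟩ | h
    · exact absurd ⟨m, hm, power m K hK h2⟩ hA
    · exact h
  refine ⟨?_, ?_, ?_⟩
  · rcases Pool.Agent.HF.half_or_saving Pool.Agent.HF.FINY with ⟨m, K, hm, hK, -, h2⟩ | h
    · exact absurd ⟨m, hm, power m K hK h2⟩ hA
    · intro a b ha hb hab s hs
      obtain ⟨M₀, h⟩ := h a b ha hb hab s hs
      refine ⟨M₀, fun M hM y => ?_⟩
      have h1 := h M hM y
      have e1 : {t : ℕ | t < M ∧ Admissible a b (y + s * t)} = ((range M).filter (fun t : ℕ => Pool.Agent.IT.Ad a b (y + s * (t : ℕ))) : Finset ℕ) := by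
        ext t
        simp only [Set.mem_ofPred_eq, coe_filter, mem_range]
        exact Iff.rfl
      have e2 : {t : ℕ | t < M ∧ TrueCase a b (y + s * t)} = ((range M).filter (fun t : ℕ => Pool.Agent.HF.TC a b (y + s * (t : ℕ))) : Finset ℕ) := by
        ext t
        simp only [Set.mem_ofPred_eq, coe_filter, mem_range]
        unfold Pool.Agent.HF.TC
        rw [hT]
      rw [e1, e2, Set.ncard_coe_finset, Set.ncard_coe_finset]
      exact h1
  · intro ε hε
    obtain ⟨-, -, h0⟩ := hDI 1 le_rfl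
    obtain ⟨E, hE, h⟩ := h0 ε hε
    exact ⟨E, hE, fun a b ha hb hab hn => (hG _ _ _).1 (h a b ha hb hab hn)⟩
  · intro m hm
    obtain ⟨⟨C, hC⟩, -, -⟩ := hDI m hm
    refine ⟨C, fun a b c' hp u => ?_⟩
    obtain ⟨c, hc, hd, hTc⟩ := hC a b c' hp u
    rw [Finset.mem_Ioc] at hc
    rw [hT] at hTc
    exact ⟨c, hc.1, hc.2, hd, hTc⟩

end Pool.Agent.Results.MP_bf63dc_nt.HalfOrPowerSaving
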