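import Pool.Agent.helper38.AT.All
import Pool.Agent.helper11.TX.All3
import Pool.Agent.helper11.MK.Main

/-!
# A third of all cases of Q1, from a theorem on almost all tuples of linear forms

A case `(a, b, c)` of Q1 is true if `a p - b q = c` has infinitely many solutions in primes `p, q`.

THEOREM. (1) One quarter of all cases `(a, b, c)` of Q1 are true (logarithmic density in `a`, `b`, any interval of `c` which is long in terms
of `a`, `b`), and a third of them, `1/3 - ε`, if every case is counted with its singular series. (2) In every finite set `V` of linear forms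
`a n + b`, `b` prime to `6 a`, at least `|V|² / 3 - C |V|^(2 - δ)` ordered pairs of forms give a true case. (3) For every `m` at least
`(1/3 - ε) M` of the integers `c` in every interval of `M ≥ M₀(m, ε)` integers have `p - q = 2 m c` for infinitely many pairs of primes.
(4) All this follows from: for every `k` there are `C, δ > 0` such that for all finite sets `F_1, ..., F_k` of at least `L` linear forms `s n + h`,
`s ≥ 1`, all but `C |F_1| ... |F_k| L^(-δ)` of the admissible tuples in `F_1 × ... × F_k` have more than `(1/4 + 1/500000) k` prime values for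
infinitely many `n`.

PROOF. Rows and complete proofs in `Pool/Agent/helper38/AT/Spec.lean`, `Pool/Agent/helper10/QT/SpecX.lean`. In `k` clusters of linear
forms more than `(1/4 + e) k`, `e = 1/500000`, contain primes simultaneously: a theorem of the kind of Maynard and Tao, with Rosser's sieve
and a small gain for the pairs, as in the work of Merikoski (`Pool.Agent.helper17.MK`). The forms in a box of admissible tuples in one
residue class modulo the small primes are admissible together: the box theorem, every large box of admissible tuples contains one with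
more than `(1/4 + e) k` primes. By the theorem of Kovari, Sos, Turan and Erdos a set of tuples without a large box is small by a power.
(2) is (4) for `k = 4` and the inequality of Moon and Moser; (3) a greedy choice of quadruples `n + h_1, ..., n + h_4`, `h_1 = h_2 = 0`,
`h_3 = h_4 = 4` modulo 6, in four intervals of quickly growing lengths; (1) is (2) for boxes of forms, with the weights of the
pairs worked out.
-/

set_option autoImplicit false

namespace Pool.Agent.Results.MP_bf63dc_nt.ThirdOfAllCases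

open Finset

/-- The value at `n` of the linear form `s n + h`, `f = (s, h)` (`0` if it is negative). -/
def ev (f : ℕ × ℤ) (n : ℕ) : ℕ := ((f.1 : ℤ) * n + f.2).toNat

/-- The linear forms `f i` are admissible: no prime divides the product of their values at all `n`. -/
def Adm {k : ℕ} (f : Fin k → ℕ × ℤ) : Prop :=
  ∀ p : ℕ, p.Prime → ∃ n : ℕ, ∀ i, ¬ (p : ℤ) ∣ ((f i).1 : ℤ) * n + (f i).2

/-- For infinitely many `n` more than `(1/4 + 1/500000) k` of the `k` forms have a prime value at `n`. -/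
def Many {k : ℕ} (f : Fin k → ℕ × ℤ) : Prop :=
  ∀ N : ℕ, ∃ n ≥ N, (1 / 4 + 1 / 500000 : ℝ) * k < #{i : Fin k | (ev (f i) n).Prime}

/-- The conditions of Q1 on `a, b, c`. -/
def Admissible (a b : ℕ) (c : ℤ) : Prop :=
  0 < a ∧ 0 < b ∧ c ≠ 0 ∧ Nat.Coprime a b ∧ IsCoprime (a : ℤ) c ∧ IsCoprime (b : ℤ) c ∧
    ¬ (Odd a ∧ Odd b ∧ Odd c)

/-- `(a, b, c)` satisfies the conditions of Q1 and `a p - b q = c` has infinitely many solutions in
primes `p, q`. -/
def TrueCase (a b : ℕ) (c : ℤ) : Prop :=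
  Admissible a b c ∧ {pq : ℕ × ℕ | pq.1.Prime ∧ pq.2.Prime ∧ (a : ℤ) * pq.1 - b * pq.2 = c}.Infinite

/-- The pair of forms `f = (s, h)`, `g = (t, h')` gives a true case of Q1: with `d = gcd(s, t)` the equation
`(t/d) p - (s/d) q = (t h - s h')/d` (satisfied by `p = s n + h`, `q = t n + h'`). -/
def Pair (f g : ℕ × ℤ) : Prop :=
  TrueCase (g.1 / Nat.gcd f.1 g.1) (f.1 / Nat.gcd f.1 g.1) (((g.1 : ℤ) * f.2 - f.1 * g.2) / Nat.gcd f.1 g.1)

/-- The singular series of `a p - b q = c` up to a constant factor: the product of `(l - 1)/(l - 2)` over the primes `l ≠ 2` dividing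
`a b c`. -/
noncomputable def SS (a b : ℕ) (c : ℤ) : ℝ :=
  ∏ l ∈ (a * b * c.natAbs).primeFactors with l ≠ 2, ((l : ℝ) - 1) / ((l : ℝ) - 2)

/-- The sum over `a, b ≤ N` of `1/(a b)` times the mean value `1/b` times the sum of `G a b c` over the `c` with
`b u < c ≤ b (u + M)` and `P a b c`. -/
noncomputable def LogSum (G : ℕ → ℕ → ℤ → ℝ) (P : ℕ → ℕ → ℤ → Prop) (N M : ℕ) (u : ℤ) : ℝ :=
  ∑ a ∈ Icc 1 N, ∑ b ∈ Icc 1 N, 1 / ((a : ℝ) * (b : ℝ) ^ 2) *
    ∑ c ∈ Ioc ((b : ℤ) * u) ((b : ℤ) * (u + M)), Set.indicator {c | P a b c} (G a b) c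

theorem hT : Pool.Agent.helper85.FC.TrueCase = TrueCase := by
  funext a b c
  unfold Pool.Agent.helper85.FC.TrueCase TrueCase Admissible
  simp only [and_assoc]

theorem hP : Pool.Agent.AT.Pair = Pair := by
  funext f g
  unfold Pool.Agent.AT.Pair Pair
  rw [hT]

theorem hcard {α : Type} (s : Finset α) (P Q : α → Prop) (inst : DecidablePred Q) (h : ∀ x, P x ↔ Q x) :
    (({x | x ∈ s ∧ P x}.ncard : ℕ) : ℝ) = ((#(@Finset.filter α Q inst s) : ℕ) : ℝ) := by
  have h1 : {x | x ∈ s ∧ P x} = ((@Finset.filter α Q inst s : Finset α) : Set α) := by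
    ext x
    simp [h]
  rw [h1, Set.ncard_coe_finset]

/-- **A third of all cases of Q1.** -/
theorem result :
    -- one quarter of all cases, one third with the weights `SS`
    (∀ ε : ℝ, 0 < ε → ∃ N₀ : ℕ, ∀ N : ℕ, N₀ ≤ N → ∃ M₀ : ℕ, ∀ M : ℕ, M₀ ≤ M → ∀ u : ℤ,
      1 / 4 * LogSum (fun _ _ _ => 1) Admissible N M u ≤ LogSum (fun _ _ _ => 1) TrueCase N M u ∧
      (|u| ≤ M → (1 / 3 - ε) * LogSum SS Admissible N M u ≤ LogSum SS TrueCase N M u)) ∧
    -- a third of all pairs of forms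
    (∃ C δ : ℝ, 0 < C ∧ 0 < δ ∧ ∀ V : Finset (ℕ × ℤ),
      (∀ f ∈ V, 0 < f.1 ∧ IsCoprime (f.1 : ℤ) f.2 ∧ IsCoprime (6 : ℤ) f.2) →
      1 / 3 * (#V : ℝ) ^ 2 - C * (#V : ℝ) ^ (2 - δ) ≤
        ({p | p ∈ V ×ˢ V ∧ Pair p.1 p.2}.ncard : ℝ)) ∧
    -- differences of primes
    (∀ m : ℕ, 1 ≤ m → ∀ ε : ℝ, 0 < ε → ∃ M₀ : ℕ, ∀ M : ℕ, M₀ ≤ M → ∀ u : ℤ,
      (1 / 3 - ε) * M ≤ ({c : ℤ | c ∈ Ioc u (u + M) ∧ c ≠ 0 ∧
        {pq : ℕ × ℕ | pq.1.Prime ∧ pq.2.Prime ∧ (pq.1 : ℤ) - pq.2 = 2 * m * c}.Infinite}.ncard : ℝ)) ∧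
    -- almost all tuples of forms
    (∀ k : ℕ, 1 ≤ k → ∃ C δ : ℝ, 0 < C ∧ 0 < δ ∧ ∀ (F : Fin k → Finset (ℕ × ℤ)) (L : ℕ), 1 ≤ L →
      (∀ i, L ≤ #(F i)) → (∀ i, ∀ f ∈ F i, 0 < f.1) →
      ({f | f ∈ Fintype.piFinset F ∧ (Adm f ∧ ¬ Many f)}.ncard : ℝ) ≤
        C * (∏ i, (#(F i) : ℝ)) * (L : ℝ) ^ (-δ)) := by
  refine ⟨?_, ?_, ?_, ?_⟩
  · intro ε hε
    obtain ⟨N₀, H⟩ := Pool.Agent.helper11.TX.FN_of Pool.Agent.helper11.MK.cm4 ε hε
    refine ⟨N₀, fun N hN => ?_⟩
    obtain ⟨M₀, H1⟩ := H N hN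
    refine ⟨M₀, fun M hM u => ?_⟩
    have h2 : ∀ (G : ℕ → ℕ → ℤ → ℝ) (P : ℕ → ℕ → ℤ → Prop),
        Pool.Agent.helper11.TX.Sm P G N M u = LogSum G P N M u := by
      intro G P
      unfold Pool.Agent.helper11.TX.Sm LogSum
      refine sum_congr rfl fun a _ => sum_congr rfl fun b _ => ?_
      rw [sum_filter]
      refine congrArg (fun x => 1 / ((a : ℝ) * (b : ℝ) ^ 2) * x) (sum_congr rfl fun c _ => ?_)
      by_cases hc : P a b c
      · rw [if_pos hc, Set.indicator_of_mem (show c ∈ {c | P a b c} from hc)]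
      · rw [if_neg hc, Set.indicator_of_notMem (show c ∉ {c | P a b c} from hc)]
    constructor
    · have h1 := (H1 M hM).2 u
      rw [h2, h2, hT] at h1
      exact h1
    · intro hu
      have h1 := (H1 M hM).1 u hu
      rw [h2, h2, hT] at h1
      exact h1
  · obtain ⟨C, δ, hC, hδ, H⟩ := Pool.Agent.AT.THP_all Pool.Agent.AT.QPc_all
    refine ⟨C, δ, hC, hδ, fun V hV => ?_⟩
    have h1 := H V hV
    rw [hP] at h1
    rwa [hcard _ _ _ _ fun _ => Iff.rfl]
  · intro m hm ε hε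
    obtain ⟨M₀, H⟩ := Pool.Agent.AT.THG_all Pool.Agent.AT.QPc_all m hm ε hε
    refine ⟨M₀, fun M hM u => ?_⟩
    rw [hcard _ _ _ _ fun _ => Iff.rfl]
    exact H M hM u
  · intro k hk
    obtain ⟨C, δ, hC, hδ, -, H⟩ := Pool.Agent.AT.Q_all k hk
    refine ⟨C, δ, hC, hδ, fun F L hL hF hpos => ?_⟩
    rw [hcard _ _ _ _ fun f => (Iff.rfl : (Adm f ∧ ¬ Many f) ↔ Pool.Agent.AT.Adm f ∧ ¬ Pool.Agent.AT.Many f)]
    exact H F L hL hF hpos

end Pool.Agent.Results.MP_bf63dc_nt.ThirdOfAllCases
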